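import Mathlib

/-! # Rigid sequences of phases violate the law of mean squares

`VQ w R N` is the mean over `n = 1, …, N` of `|w (n) + … + w (n + R - 1)|² / R`.  If, for
arbitrarily large `q`, the block sums of length `q` at `n + q` are nearly `c` times the block sums
at `n`, with a unit complex number `c` not depending on `n`, then `VQ w R N` cannot be near
a positive number for all large `R`. -/

set_option autoImplicit false

open Filter Topology Finset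

namespace Pool.Agent.K9h98.QP

/-- block sums -/
noncomputable def BS (w : ℕ → ℂ) (R n : ℕ) : ℂ := ∑ i ∈ range R, w (n + i)

/-- mean squares of block sums -/
noncomputable def VQ (w : ℕ → ℂ) (R N : ℕ) : ℝ := (∑ n ∈ Icc 1 N, ‖BS w R n‖ ^ 2) / (N * R)

lemma BS_add (w : ℕ → ℂ) (R S n : ℕ) : BS w (R + S) n = BS w R n + BS w S (n + R) := by
  unfold BS
  rw [sum_range_add]
  congr 1
  exact sum_congr rfl fun i _ => by rw [add_assoc]

lemma norm_sq_close {X Y Z κ : ℂ} {δ r : ℝ} (hX : X = κ * Y + Z) (hκ : ‖κ‖ ≤ 4) (hδ : 0 ≤ δ)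
    (hr : 0 < r) (hZ : ‖Z‖ ≤ 6 * δ * r) :
    |‖X‖ ^ 2 - ‖κ‖ ^ 2 * ‖Y‖ ^ 2| ≤ 24 * δ * (‖Y‖ ^ 2 + r ^ 2) + 36 * δ ^ 2 * r ^ 2 := by
  have h1 : |‖X‖ - ‖κ * Y‖| ≤ ‖Z‖ := by
    have := abs_norm_sub_norm_le X (κ * Y)
    rwa [hX, add_sub_cancel_left, ← hX] at this
  rw [norm_mul] at h1
  have hY := norm_nonneg Y
  have hκ0 := norm_nonneg κ
  have hX0 := norm_nonneg X
  have hZ0 := norm_nonneg Z
  have h2 : ‖X‖ ^ 2 - ‖κ‖ ^ 2 * ‖Y‖ ^ 2 = (‖X‖ - ‖κ‖ * ‖Y‖) * (‖X‖ - ‖κ‖ * ‖Y‖ + 2 * (‖κ‖ * ‖Y‖)) := by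
    ring
  rw [h2, abs_mul]
  have h3 : |‖X‖ - ‖κ‖ * ‖Y‖ + 2 * (‖κ‖ * ‖Y‖)| ≤ ‖Z‖ + 2 * (4 * ‖Y‖) := by
    refine (abs_add_le _ _).trans ?_
    rw [abs_of_nonneg (by positivity : 0 ≤ 2 * (‖κ‖ * ‖Y‖))]
    gcongr
  calc |‖X‖ - ‖κ‖ * ‖Y‖| * |‖X‖ - ‖κ‖ * ‖Y‖ + 2 * (‖κ‖ * ‖Y‖)|
      ≤ ‖Z‖ * (‖Z‖ + 2 * (4 * ‖Y‖)) := by gcongr
    _ ≤ (6 * δ * r) * (6 * δ * r + 2 * (4 * ‖Y‖)) := by gcongr
    _ = 24 * δ * (2 * ‖Y‖ * r) + 36 * δ ^ 2 * r ^ 2 := by ring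
    _ ≤ 24 * δ * (‖Y‖ ^ 2 + r ^ 2) + 36 * δ ^ 2 * r ^ 2 := by
        gcongr
        exact two_mul_le_add_sq _ _

/-- a block of length `m q` compared with a block of length `q` -/
lemma VQ_close {w : ℕ → ℂ} {q m N : ℕ} {κ : ℂ} {δ : ℝ} (hq : 1 ≤ q) (hm : 1 ≤ m) (hN : 1 ≤ N)
    (hκ : ‖κ‖ ≤ 4) (hδ : 0 ≤ δ)
    (h : ∀ n, ‖BS w (m * q) n - κ * BS w q n‖ ≤ 6 * δ * Real.sqrt q) :
    |m * VQ w (m * q) N - ‖κ‖ ^ 2 * VQ w q N| ≤ 24 * δ * (VQ w q N + 1) + 36 * δ ^ 2 := by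
  have hq0 : (0 : ℝ) < q := by exact_mod_cast hq
  have hm0 : (0 : ℝ) < m := by exact_mod_cast hm
  have hN0 : (0 : ℝ) < N := by exact_mod_cast hN
  have hr : 0 < Real.sqrt q := Real.sqrt_pos.2 hq0
  have hr2 : Real.sqrt q ^ 2 = q := Real.sq_sqrt hq0.le
  obtain ⟨SX, hSX⟩ : ∃ SX, SX = ∑ n ∈ Icc 1 N, ‖BS w (m * q) n‖ ^ 2 := ⟨_, rfl⟩
  obtain ⟨SY, hSY⟩ : ∃ SY, SY = ∑ n ∈ Icc 1 N, ‖BS w q n‖ ^ 2 := ⟨_, rfl⟩
  have h1 : |SX - ‖κ‖ ^ 2 * SY| ≤ 24 * δ * (SY + N * q) + 36 * δ ^ 2 * (N * q) := by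
    rw [hSX, hSY, mul_sum, ← sum_sub_distrib]
    refine (abs_sum_le_sum_abs _ _).trans ?_
    have h2 : ∀ n ∈ Icc 1 N, |‖BS w (m * q) n‖ ^ 2 - ‖κ‖ ^ 2 * ‖BS w q n‖ ^ 2| ≤
        24 * δ * (‖BS w q n‖ ^ 2 + q) + 36 * δ ^ 2 * q := by
      intro n _
      have := norm_sq_close (X := BS w (m * q) n) (Y := BS w q n)
        (Z := BS w (m * q) n - κ * BS w q n) (by ring) hκ hδ hr (h n)
      rwa [hr2] at this
    refine (sum_le_sum h2).trans (le_of_eq ?_)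
    rw [sum_add_distrib, ← mul_sum, sum_add_distrib, sum_const, sum_const, Nat.card_Icc]
    simp only [nsmul_eq_mul, Nat.add_sub_cancel]
    ring
  have e1 : m * VQ w (m * q) N = SX / (N * q) := by
    unfold VQ
    rw [← hSX]
    push_cast
    field_simp
  have e2 : VQ w q N = SY / (N * q) := by
    unfold VQ
    rw [← hSY]
  rw [e1, e2]
  have hNq : (0 : ℝ) < N * q := by positivity
  have e3 : SX / (N * q) - ‖κ‖ ^ 2 * (SY / (N * q)) = (SX - ‖κ‖ ^ 2 * SY) / (N * q) := by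
    field_simp
  have e4 : 24 * δ * (SY / (N * q) + 1) + 36 * δ ^ 2 =
      (24 * δ * (SY + N * q) + 36 * δ ^ 2 * (N * q)) / (N * q) := by
    field_simp
  rw [e3, e4, abs_div, abs_of_pos hNq]
  gcongr

/-- **Rigidity.** -/
theorem rigid {l : Filter ℕ} [l.NeBot] {w : ℕ → ℂ} {v : ℝ} (hv : 0 < v)
    (hV : ∀ ε : ℝ, 0 < ε → ∃ R₀ : ℕ, ∀ R : ℕ, R₀ ≤ R → ∀ᶠ N in l, |VQ w R N - v| < ε)
    (hrig : ∀ δ : ℝ, 0 < δ → ∀ Q : ℕ, ∃ q : ℕ, Q ≤ q ∧ ∃ c : ℂ, ‖c‖ = 1 ∧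
      ∀ n, ‖BS w q (n + q) - c * BS w q n‖ ≤ δ * Real.sqrt q) : False := by
  obtain ⟨δ, hδ⟩ : ∃ δ : ℝ, δ = min 1 (v / (100 * (24 * (2 * v + 1) + 36))) := ⟨_, rfl⟩
  have hδ0 : 0 < δ := by rw [hδ]; exact lt_min one_pos (by positivity)
  have hδ1 : δ ≤ 1 := by rw [hδ]; exact min_le_left _ _
  have hδ2 : δ * (24 * (2 * v + 1) + 36) ≤ v / 100 := by
    have h1 : δ ≤ v / (100 * (24 * (2 * v + 1) + 36)) := by rw [hδ]; exact min_le_right _ _
    rw [le_div_iff₀ (by positivity)] at h1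
    linarith
  obtain ⟨R₀, hR⟩ := hV (v / 100) (by positivity)
  obtain ⟨q, hq, c, hc, hE⟩ := hrig δ hδ0 (max R₀ 1)
  have hq0 : R₀ ≤ q := (le_max_left _ _).trans hq
  have hq1 : 1 ≤ q := (le_max_right _ _).trans hq
  obtain ⟨N, h1, h2, h4⟩ := ((hR q hq0).and ((hR (2 * q) (by omega)).and
    (hR (4 * q) (by omega)))).exists
  have hN : 1 ≤ N := by
    rcases Nat.eq_zero_or_pos N with h | h
    · exfalso
      rw [h] at h1
      unfold VQ at h1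
      simp only [Nat.cast_zero, zero_mul, div_zero, zero_sub, abs_neg, abs_of_pos hv] at h1
      linarith
    · exact h
  -- the two comparisons
  have hs0 := Real.sqrt_nonneg (q : ℝ)
  have hc1 : ‖1 + c‖ ≤ 2 := (norm_add_le _ _).trans (by rw [norm_one, hc]; norm_num)
  have hc2 : ‖1 + c ^ 2‖ ≤ 2 := (norm_add_le _ _).trans (by rw [norm_one, norm_pow, hc]; norm_num)
  have b2 : ∀ n, BS w (2 * q) n = BS w q n + BS w q (n + q) := fun n => by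
    rw [two_mul, BS_add]
  have b4 : ∀ n, BS w (4 * q) n = BS w q n + BS w q (n + q) + (BS w q (n + q + q) +
      BS w q (n + q + q + q)) := fun n => by
    have e : 4 * q = q + q + (q + q) := by ring
    rw [e, BS_add w (q + q) (q + q), BS_add, BS_add, ← add_assoc n q q]
  have k2 : ∀ n, ‖BS w (2 * q) n - (1 + c) * BS w q n‖ ≤ 6 * δ * Real.sqrt q := by
    intro n
    have e : BS w (2 * q) n - (1 + c) * BS w q n = BS w q (n + q) - c * BS w q n := by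
      rw [b2]; ring
    rw [e]
    have := hE n
    have h5 : 0 ≤ δ * Real.sqrt q := by positivity
    linarith
  have k4 : ∀ n, ‖BS w (4 * q) n - (1 + c) * (1 + c ^ 2) * BS w q n‖ ≤ 6 * δ * Real.sqrt q := by
    intro n
    have e : BS w (4 * q) n - (1 + c) * (1 + c ^ 2) * BS w q n =
        (BS w q (n + q) - c * BS w q n) + (1 + c) * (c * (BS w q (n + q) - c * BS w q n) +
          (BS w q (n + q + q) - c * BS w q (n + q))) +
          (BS w q (n + q + q + q) - c * BS w q (n + q + q)) := by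
      rw [b4]; ring
    rw [e]
    have h5 := hE n
    have h6 := hE (n + q)
    have h7 := hE (n + q + q)
    have h8 : ‖c * (BS w q (n + q) - c * BS w q n) +
          (BS w q (n + q + q) - c * BS w q (n + q))‖ ≤ 2 * (δ * Real.sqrt q) := by
      refine (norm_add_le _ _).trans ?_
      rw [norm_mul, hc, one_mul]
      linarith
    have h9 : ‖(1 + c) * (c * (BS w q (n + q) - c * BS w q n) +
          (BS w q (n + q + q) - c * BS w q (n + q)))‖ ≤ 2 * (2 * (δ * Real.sqrt q)) := by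
      rw [norm_mul]
      gcongr
    refine (norm_add_le _ _).trans ?_
    have h10 := norm_add_le (BS w q (n + q) - c * BS w q n) ((1 + c) * (c * (BS w q (n + q) -
      c * BS w q n) + (BS w q (n + q + q) - c * BS w q (n + q))))
    linarith
  have hk4 : ‖(1 + c) * (1 + c ^ 2)‖ ≤ 4 := by
    rw [norm_mul]
    calc ‖1 + c‖ * ‖1 + c ^ 2‖ ≤ 2 * 2 := by gcongr
      _ = 4 := by norm_num
  have c2 := VQ_close (m := 2) hq1 (by norm_num) hN (by linarith) hδ0.le k2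
  have c4 := VQ_close (m := 4) hq1 (by norm_num) hN hk4 hδ0.le k4
  obtain ⟨V1, hV1⟩ : ∃ V1, V1 = VQ w q N := ⟨_, rfl⟩
  obtain ⟨V2, hV2⟩ : ∃ V2, V2 = VQ w (2 * q) N := ⟨_, rfl⟩
  obtain ⟨V4, hV4⟩ : ∃ V4, V4 = VQ w (4 * q) N := ⟨_, rfl⟩
  rw [← hV1] at h1 c2 c4
  rw [← hV2] at h2 c2
  rw [← hV4] at h4 c4
  have hV1' := abs_lt.1 h1
  have hV2' := abs_lt.1 h2
  have hV4' := abs_lt.1 h4
  have hη : 24 * δ * (V1 + 1) + 36 * δ ^ 2 ≤ v / 100 := by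
    have e5 : δ ^ 2 ≤ δ := by
      rw [pow_two]
      calc δ * δ ≤ 1 * δ := by gcongr
        _ = δ := one_mul _
    have e6 : δ * (V1 + 1) ≤ δ * (2 * v + 1) := by
      apply mul_le_mul_of_nonneg_left _ hδ0.le
      linarith
    have e7 : 24 * δ * (V1 + 1) = 24 * (δ * (V1 + 1)) := by ring
    have e8 : δ * (24 * (2 * v + 1) + 36) = 24 * (δ * (2 * v + 1)) + 36 * δ := by ring
    rw [e8] at hδ2
    rw [e7]
    linarith
  have c2' := abs_le.1 (c2.trans hη)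
  have c4' := abs_le.1 (c4.trans hη)
  -- the values of the two factors
  obtain ⟨x, hx⟩ : ∃ x, x = c.re := ⟨_, rfl⟩
  obtain ⟨y, hy⟩ : ∃ y, y = c.im := ⟨_, rfl⟩
  have hxy : x ^ 2 + y ^ 2 = 1 := by
    have h5 := Complex.sq_norm c
    rw [hc, Complex.normSq_apply, ← hx, ← hy] at h5
    rw [pow_two, pow_two, ← h5, one_pow]
  have f1 : ‖1 + c‖ ^ 2 = 2 + 2 * x := by
    rw [Complex.sq_norm, Complex.normSq_apply]
    simp only [Complex.add_re, Complex.one_re, Complex.add_im, Complex.one_im, ← hx, ← hy]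
    linear_combination hxy
  have f2 : ‖1 + c ^ 2‖ ^ 2 = 4 * x ^ 2 := by
    rw [Complex.sq_norm, Complex.normSq_apply]
    simp only [Complex.add_re, Complex.one_re, Complex.add_im, Complex.one_im, pow_two,
      Complex.mul_re, Complex.mul_im, ← hx, ← hy]
    linear_combination (x ^ 2 + y ^ 2 - 1) * hxy
  rw [norm_mul, mul_pow, f1, f2] at c4'
  rw [f1] at c2'
  push_cast at c2' c4'
  have hV1p : 0 < V1 := by linarith
  -- `x` is small
  have x1 : x ≤ 3 / 100 := by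
    by_contra hcon
    push Not at hcon
    have h5 : (2 + 2 * (3 / 100)) * V1 ≤ (2 + 2 * x) * V1 := by gcongr
    linarith
  have x2 : -(3 / 100) ≤ x := by
    by_contra hcon
    push Not at hcon
    have h5 : (2 + 2 * x) * V1 ≤ (2 + 2 * -(3 / 100)) * V1 := by gcongr
    linarith
  have x3 : (2 + 2 * x) * (4 * x ^ 2) ≤ 1 / 100 := by
    have h5 : x ^ 2 ≤ 9 / 10000 := by
      have := sq_le_sq' x2 x1
      linarith
    have h6 : 2 + 2 * x ≤ 206 / 100 := by linarith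
    have h7 : 0 ≤ 2 + 2 * x := by linarith
    have h8 : 0 ≤ 4 * x ^ 2 := by positivity
    calc (2 + 2 * x) * (4 * x ^ 2) ≤ (206 / 100) * (4 * (9 / 10000)) := by gcongr
      _ ≤ 1 / 100 := by norm_num
  have x4 : (2 + 2 * x) * (4 * x ^ 2) * V1 ≤ 1 / 100 * V1 := by gcongr
  linarith

end Pool.Agent.K9h98.QP
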