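import Mathlib

/-! # Sums of increments of periodic functions of bounded variation along rotations -/

set_option autoImplicit false

open Filter Topology Finset

namespace Pool.Agent.K9h98.QP

/-- telescoping with step `4` -/
lemma tele4 (F : ℕ → ℝ) (hF : Monotone F) (q : ℕ) :
    ∑ i ∈ range q, (F (i + 4) - F i) ≤ 4 * (F (q + 4) - F 0) := by
  have h1 : ∀ i, F (i + 4) - F i = (F (i + 1) - F i) + (F (i + 1 + 1) - F (i + 1)) +
      (F (i + 2 + 1) - F (i + 2)) + (F (i + 3 + 1) - F (i + 3)) := fun i => by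
    have e1 : i + 1 + 1 = i + 2 := by ring
    have e2 : i + 2 + 1 = i + 3 := by ring
    have e3 : i + 3 + 1 = i + 4 := by ring
    rw [e1, e2, e3]
    ring
  simp only [h1]
  rw [sum_add_distrib, sum_add_distrib, sum_add_distrib]
  have t : ∀ j : ℕ, ∑ i ∈ range q, (F (i + j + 1) - F (i + j)) = F (q + j) - F j := by
    intro j
    have := sum_range_sub (fun i => F (i + j)) q
    simp only [zero_add] at this
    rw [← this]
    refine sum_congr rfl fun i _ => ?_
    rw [add_right_comm]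
  have t0 := t 0
  simp only [add_zero] at t0
  rw [t0, t 1, t 2, t 3]
  have m1 : F q ≤ F (q + 4) := hF (by omega)
  have m2 : F (q + 1) ≤ F (q + 4) := hF (by omega)
  have m3 : F (q + 2) ≤ F (q + 4) := hF (by omega)
  have m4 : F (q + 3) ≤ F (q + 4) := hF (by omega)
  have n2 : F 0 ≤ F 1 := hF (by omega)
  have n3 : F 0 ≤ F 2 := hF (by omega)
  have n4 : F 0 ≤ F 3 := hF (by omega)
  linarith

/-- `g` is `1`-periodic and its increments are bounded by those of the monotone function `Φ` -/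
structure Dom (g Φ : ℝ → ℝ) : Prop where
  per : Function.Periodic g 1
  mono : Monotone Φ
  le : ∀ x y, x ≤ y → |g y - g x| ≤ Φ y - Φ x

lemma Dom.win {g Φ : ℝ → ℝ} (h : Dom g Φ) {a b x y : ℝ} (hx : a ≤ x) (hx' : x ≤ b) (hy : a ≤ y)
    (hy' : y ≤ b) : |g y - g x| ≤ Φ b - Φ a := by
  rcases le_total x y with hxy | hxy
  · have := h.le x y hxy
    have := h.mono hx
    have := h.mono hy'
    linarith
  · have := h.le y x hxy
    rw [abs_sub_comm] at this
    have := h.mono hy
    have := h.mono hx'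
    linarith

/-- **the sum of increments is bounded at good denominators** -/
lemma Dom.sum_le {g Φ : ℝ → ℝ} (h : Dom g Φ) {α : ℝ} {p : ℤ} {q : ℕ} (hq : 1 ≤ q)
    (hcop : IsCoprime p (q : ℤ)) (hα : |α - p / q| ≤ 1 / (q : ℝ) ^ 2) (y : ℝ) :
    ∑ r ∈ range q, |g (y + r * α + q * α) - g (y + r * α)| ≤ 4 * (Φ 4 - Φ (-2)) := by
  classical
  have hq0 : (0 : ℝ) < q := by exact_mod_cast hq
  have hqz : (0 : ℤ) < q := by exact_mod_cast hq
  -- reduction to `0 ≤ y < 1`
  wlog hy : 0 ≤ y ∧ y < 1 generalizing y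
  · have h1 := this (Int.fract y) ⟨Int.fract_nonneg y, Int.fract_lt_one y⟩
    refine le_trans (le_of_eq ?_) h1
    refine sum_congr rfl fun r _ => ?_
    have e : ∀ z : ℝ, g (y + z) = g (Int.fract y + z) := by
      intro z
      have h2 : y + z = Int.fract y + z + (⌊y⌋ : ℤ) * 1 := by
        have := Int.fract_add_floor y
        rw [mul_one]
        linarith
      rw [h2]
      exact h.per.int_mul ⌊y⌋ _
    rw [add_assoc, add_assoc, e, e]
  obtain ⟨hy0, hy1⟩ := hy
  obtain ⟨σ, hσ⟩ : ∃ σ : ℕ → ℕ, σ = fun r : ℕ => (((r : ℤ) * p) % q).toNat := ⟨_, rfl⟩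
  have hσz : ∀ r, (σ r : ℤ) = ((r : ℤ) * p) % q := by
    intro r
    rw [hσ]
    exact Int.toNat_of_nonneg (Int.emod_nonneg _ hqz.ne')
  have hσlt : ∀ r, σ r < q := by
    intro r
    have := Int.emod_lt_of_pos ((r : ℤ) * p) hqz
    rw [← hσz] at this
    exact_mod_cast this
  have hinj : Set.InjOn σ (range q : Finset ℕ) := by
    intro r hr r' hr' hrr
    rw [coe_range, Set.mem_Iio] at hr hr'
    have h1 : ((r : ℤ) * p) % q = ((r' : ℤ) * p) % q := by
      rw [← hσz, ← hσz, hrr]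
    have h2 : (q : ℤ) ∣ (r : ℤ) * p - (r' : ℤ) * p := Int.ModEq.dvd (Int.ModEq.symm h1)
    rw [← sub_mul] at h2
    have h3 : (q : ℤ) ∣ (r : ℤ) - r' := hcop.symm.dvd_of_dvd_mul_right h2
    have h4 : |(r : ℤ) - r'| < q := by rw [abs_lt]; constructor <;> omega
    have h5 := Int.eq_zero_of_abs_lt_dvd h3 h4
    omega
  obtain ⟨F, hF⟩ : ∃ F : ℕ → ℝ, F = fun i : ℕ => Φ (y + ((i : ℝ) - 2) / q) := ⟨_, rfl⟩
  have hFm : Monotone F := by
    intro i j hij
    rw [hF]
    apply h.mono
    have : (i : ℝ) ≤ j := by exact_mod_cast hij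
    gcongr
  have hterm : ∀ r ∈ range q, |g (y + r * α + q * α) - g (y + r * α)| ≤ F (σ r + 4) - F (σ r) := by
    intro r hr
    rw [mem_range] at hr
    obtain ⟨m, hm⟩ : ∃ m : ℤ, m = ((r : ℤ) * p) / q := ⟨_, rfl⟩
    have hdiv : (r : ℝ) * p = q * m + σ r := by
      have h1 := Int.emod_add_mul_ediv ((r : ℤ) * p) q
      rw [← hσz, ← hm] at h1
      have h2 : ((r : ℤ) * p : ℤ) = q * m + σ r := by linarith
      exact_mod_cast h2
    obtain ⟨η, hη⟩ : ∃ η : ℝ, η = α - p / q := ⟨_, rfl⟩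
    rw [← hη] at hα
    have hrq : (r : ℝ) ≤ q := by exact_mod_cast hr.le
    have e1 : g (y + r * α) = g (y + (σ r : ℝ) / q + r * η) := by
      have h2 : y + r * α = y + (σ r : ℝ) / q + r * η + (m : ℤ) * 1 := by
        rw [hη]
        field_simp
        linarith
      rw [h2]
      exact h.per.int_mul m _
    have e2 : g (y + r * α + q * α) = g (y + (σ r : ℝ) / q + r * η + q * η) := by
      have h2 : y + r * α + q * α = y + (σ r : ℝ) / q + r * η + q * η + ((m + p : ℤ) : ℝ) * 1 := by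
        rw [hη]
        push_cast
        field_simp
        linarith
      rw [h2]
      exact h.per.int_mul (m + p) _
    rw [e1, e2]
    have hη1 : |q * η| ≤ 1 / q := by
      rw [abs_mul, abs_of_pos hq0]
      calc (q : ℝ) * |η| ≤ q * (1 / (q : ℝ) ^ 2) := by gcongr
        _ = 1 / q := by field_simp
    have hη2 : |r * η| ≤ 1 / q := by
      rw [abs_mul, abs_of_nonneg (Nat.cast_nonneg r)]
      calc (r : ℝ) * |η| ≤ q * (1 / (q : ℝ) ^ 2) := by gcongr
        _ = 1 / q := by field_simp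
    have g1 := abs_le.1 hη1
    have g2 := abs_le.1 hη2
    have e3 : F (σ r + 4) = Φ (y + (σ r : ℝ) / q + 2 * (1 / q)) := by
      rw [hF]
      show Φ _ = Φ _
      congr 1
      push_cast
      ring
    have e4 : F (σ r) = Φ (y + (σ r : ℝ) / q - 2 * (1 / q)) := by
      rw [hF]
      show Φ _ = Φ _
      congr 1
      ring
    rw [e3, e4]
    apply h.win <;> linarith
  refine (sum_le_sum hterm).trans ?_
  have h2 : ∑ r ∈ range q, (F (σ r + 4) - F (σ r)) =
      ∑ i ∈ (range q).image σ, (F (i + 4) - F i) := (sum_image (f := fun i => F (i + 4) - F i) hinj).symm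
  rw [h2]
  have h3 : ∑ i ∈ (range q).image σ, (F (i + 4) - F i) ≤ ∑ i ∈ range q, (F (i + 4) - F i) := by
    refine sum_le_sum_of_subset_of_nonneg ?_ fun i _ _ => sub_nonneg.2 (hFm (by omega))
    intro i hi
    obtain ⟨r, _, rfl⟩ := mem_image.1 hi
    exact mem_range.2 (hσlt r)
  refine (h3.trans (tele4 F hFm q)).trans ?_
  have hinv : 1 / (q : ℝ) ≤ 1 := by
    rw [div_le_one hq0]
    exact_mod_cast hq
  have h4 : F (q + 4) ≤ Φ 4 := by
    rw [hF]
    apply h.mono
    have : ((q + 4 : ℕ) : ℝ) - 2 = q + 2 := by push_cast; ring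
    rw [this, add_div, div_self hq0.ne']
    have : (2 : ℝ) / q = 2 * (1 / q) := by ring
    rw [this]
    linarith
  have h5 : Φ (-2) ≤ F 0 := by
    rw [hF]
    apply h.mono
    have : (((0 : ℕ) : ℝ) - 2) / q = -(2 * (1 / q)) := by
      push_cast
      ring
    rw [this]
    linarith
  linarith

/-- a function of locally bounded variation is dominated -/
lemma dom_of_bv {g : ℝ → ℝ} (hg : Function.Periodic g 1)
    (hv : LocallyBoundedVariationOn g Set.univ) : ∃ Φ, Dom g Φ := by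
  obtain ⟨p, q, hp, hq, e⟩ := hv.exists_monotoneOn_sub_monotoneOn
  refine ⟨fun x => p x + q x, hg, ?_, ?_⟩
  · intro x y hxy
    have := hp (Set.mem_univ x) (Set.mem_univ y) hxy
    have := hq (Set.mem_univ x) (Set.mem_univ y) hxy
    show p x + q x ≤ p y + q y
    linarith
  · intro x y hxy
    have h1 := hp (Set.mem_univ x) (Set.mem_univ y) hxy
    have h2 := hq (Set.mem_univ x) (Set.mem_univ y) hxy
    have e' : ∀ z, g z = p z - q z := fun z => by rw [e]; rfl
    rw [e', e', abs_le]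
    constructor <;> linarith

/-- the fractional part -/
lemma dom_fract (c ρ : ℝ) : Dom (fun y => c * Int.fract (y + ρ))
    (fun y => |c| * ((y + ρ) + ⌊y + ρ⌋)) := by
  refine ⟨?_, ?_, ?_⟩
  · intro y
    show c * Int.fract (y + 1 + ρ) = c * Int.fract (y + ρ)
    have : y + 1 + ρ = y + ρ + 1 := by ring
    rw [this, Int.fract_add_one]
  · intro x y hxy
    have h1 : x + ρ ≤ y + ρ := by linarith
    have h2 : ((⌊x + ρ⌋ : ℤ) : ℝ) ≤ (⌊y + ρ⌋ : ℤ) := by exact_mod_cast Int.floor_mono h1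
    exact mul_le_mul_of_nonneg_left (add_le_add h1 h2) (abs_nonneg c)
  · intro x y hxy
    have h1 : x + ρ ≤ y + ρ := by linarith
    have h2 : ((⌊x + ρ⌋ : ℤ) : ℝ) ≤ (⌊y + ρ⌋ : ℤ) := by exact_mod_cast Int.floor_mono h1
    have e : ∀ z : ℝ, Int.fract z = z - ⌊z⌋ := fun z => rfl
    show |c * Int.fract (y + ρ) - c * Int.fract (x + ρ)| ≤ _
    rw [← mul_sub, abs_mul, ← mul_sub]
    refine mul_le_mul_of_nonneg_left ?_ (abs_nonneg c)
    rw [e, e, abs_le]
    constructor <;> linarith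

end Pool.Agent.K9h98.QP
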