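import Mathlib

/-! # Exponential sums at good denominators -/

set_option autoImplicit false

open Filter Topology Finset

namespace Pool.Agent.K9h98.QP

/-- `e(x)` -/
noncomputable def ee (x : ℝ) : ℂ := Complex.exp ((2 * Real.pi * x : ℝ) * Complex.I)

lemma ee_norm (x : ℝ) : ‖ee x‖ = 1 := Complex.norm_exp_ofReal_mul_I _

lemma ee_add (x y : ℝ) : ee (x + y) = ee x * ee y := by
  unfold ee
  rw [← Complex.exp_add]
  congr 1
  push_cast
  ring

lemma ee_zero : ee 0 = 1 := by unfold ee; simp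

lemma ee_int (k : ℤ) : ee k = 1 := by
  unfold ee
  rw [Complex.exp_eq_one_iff]
  exact ⟨k, by push_cast; ring⟩

lemma ee_nsmul (x : ℝ) (n : ℕ) : ee (n * x) = ee x ^ n := by
  unfold ee
  rw [← Complex.exp_nat_mul]
  congr 1
  push_cast
  ring

lemma ee_sub_one_norm (x : ℝ) : ‖ee x - 1‖ = 2 * |Real.sin (Real.pi * x)| := by
  unfold ee
  rw [mul_comm, Complex.norm_exp_I_mul_ofReal_sub_one, norm_mul, Real.norm_eq_abs,
    Real.norm_eq_abs, abs_of_pos (by norm_num : (0 : ℝ) < 2)]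
  congr 3
  ring

lemma ee_sub_one_le (x : ℝ) (m : ℤ) : ‖ee x - 1‖ ≤ 2 * Real.pi * |x - m| := by
  have h1 : ee x = ee (x - m) := by
    have h2 : x = (x - m) + (m : ℤ) := by ring
    conv_lhs => rw [h2]
    rw [ee_add, ee_int, mul_one]
  rw [h1, ee_sub_one_norm]
  have h3 : |Real.sin (Real.pi * (x - m))| ≤ |Real.pi * (x - m)| := Real.abs_sin_le_abs
  rw [abs_mul, abs_of_pos Real.pi_pos] at h3
  linarith

lemma ee_sub_ee_le (x y : ℝ) : ‖ee x - ee y‖ ≤ 2 * Real.pi * |x - y| := by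
  have h1 : ee x - ee y = ee y * (ee (x - y) - 1) := by
    rw [mul_sub, ← ee_add, mul_one]
    congr 2
    ring
  rw [h1, norm_mul, ee_norm, one_mul]
  have := ee_sub_one_le (x - y) 0
  rwa [Int.cast_zero, sub_zero] at this

lemma ee_sub_one_ge (x : ℝ) : 4 * |x - round x| ≤ ‖ee x - 1‖ := by
  have h1 : ee x = ee (x - round x) := by
    have h2 : x = (x - round x) + (round x : ℤ) := by ring
    conv_lhs => rw [h2]
    rw [ee_add, ee_int, mul_one]
  rw [h1, ee_sub_one_norm]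
  have hpi := Real.pi_pos
  have h3 : |Real.pi * (x - round x)| ≤ Real.pi / 2 := by
    rw [abs_mul, abs_of_pos hpi]
    have := abs_sub_round x
    calc Real.pi * |x - round x| ≤ Real.pi * (1 / 2) := by gcongr
      _ = Real.pi / 2 := by ring
  have h4 := Real.mul_abs_le_abs_sin h3
  rw [abs_mul, abs_of_pos hpi] at h4
  have h5 : 2 / Real.pi * (Real.pi * |x - round x|) = 2 * |x - round x| := by
    field_simp
  rw [h5] at h4
  linarith

/-- the small multiples of an irrational number stay away from the integers -/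
lemma dist_pos {α : ℝ} (hα : Irrational α) (Q : ℕ) :
    ∃ δ : ℝ, 0 < δ ∧ ∀ j : ℕ, 1 ≤ j → j ≤ Q → ∀ m : ℤ, δ ≤ |j * α - m| := by
  induction Q with
  | zero => exact ⟨1, one_pos, fun j h1 h2 => by omega⟩
  | succ Q ih =>
    obtain ⟨δ, hδ, h⟩ := ih
    have hirr : Irrational (((Q + 1 : ℕ) : ℝ) * α) := by
      exact_mod_cast hα.natCast_mul (Nat.succ_ne_zero Q)
    have h0 : 0 < |((Q + 1 : ℕ) : ℝ) * α - round (((Q + 1 : ℕ) : ℝ) * α)| := by
      rw [abs_pos, sub_ne_zero]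
      exact hirr.ne_int _
    refine ⟨min δ _, lt_min hδ h0, fun j h1 h2 m => ?_⟩
    rcases Nat.lt_or_ge j (Q + 1) with h3 | h3
    · exact (min_le_left _ _).trans (h j h1 (by omega) m)
    · have h4 : j = Q + 1 := le_antisymm h2 h3
      rw [h4]
      exact (min_le_right _ _).trans (round_le _ m)

lemma rat_cop (x : ℚ) : IsCoprime x.num (x.den : ℤ) := by
  rw [Int.isCoprime_iff_gcd_eq_one]
  exact x.reduced

lemma rat_mul {α : ℝ} (x : ℚ) : |(x.den : ℝ) * α - (x.num : ℤ)| = x.den * |α - x| := by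
  have hd : (0 : ℝ) < x.den := by exact_mod_cast x.den_pos
  have h1 : (x.den : ℝ) * α - (x.num : ℤ) = x.den * (α - x) := by
    have h2 : (x : ℝ) = x.num / x.den := by exact_mod_cast (Rat.num_div_den x).symm
    rw [h2]
    field_simp
  rw [h1, abs_mul, abs_of_pos hd]

/-- Dirichlet's theorem with large denominators -/
lemma dirichlet {α : ℝ} (hα : Irrational α) (Q : ℕ) :
    ∃ x : ℚ, Q < x.den ∧ |α - x| ≤ 1 / (x.den : ℝ) ^ 2 := by
  obtain ⟨δ, hδ, h⟩ := dist_pos hα Q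
  obtain ⟨n, hn⟩ := exists_nat_one_div_lt hδ
  obtain ⟨x, h1, h2⟩ := Real.exists_rat_abs_sub_le_and_den_le α (Nat.succ_pos n)
  have hd : (0 : ℝ) < x.den := by exact_mod_cast x.den_pos
  have hn0 : (0 : ℝ) < (n : ℝ) + 1 := by positivity
  have hdn : (x.den : ℝ) ≤ (n : ℝ) + 1 := by exact_mod_cast h2
  push_cast at h1
  refine ⟨x, ?_, ?_⟩
  · by_contra hcon
    push Not at hcon
    have h3 := h x.den x.den_pos hcon x.num
    rw [rat_mul] at h3
    have h4 : (x.den : ℝ) * |α - x| ≤ 1 / ((n : ℝ) + 1) := by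
      calc (x.den : ℝ) * |α - x| ≤ x.den * (1 / ((((n : ℝ) + 1) + 1) * x.den)) := by gcongr
        _ = 1 / (((n : ℝ) + 1) + 1) := by field_simp
        _ ≤ 1 / ((n : ℝ) + 1) := by gcongr; linarith
    linarith
  · refine h1.trans ?_
    rw [pow_two]
    gcongr
    linarith

lemma geo_sum (α : ℝ) (k : ℤ) (q : ℕ) :
    (∑ j ∈ range q, ee (k * (j * α))) * (ee (k * α) - 1) = ee (k * (q * α)) - 1 := by
  have h1 : ∀ j : ℕ, ee (k * (j * α)) = ee (k * α) ^ j := fun j => by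
    rw [← ee_nsmul]
    congr 1
    ring
  simp only [h1]
  exact geom_sum_mul _ _

/-- **good denominators for exponential sums** -/
theorem good_den {α : ℝ} (hα : Irrational α) : ∃ C : ℝ, 0 < C ∧ ∀ Q : ℕ, ∃ q : ℕ, Q ≤ q ∧ 1 ≤ q ∧
    ∃ p : ℤ, IsCoprime p (q : ℤ) ∧ |α - p / q| ≤ 1 / (q : ℝ) ^ 2 ∧
      ∀ k : ℤ, k ≠ 0 → ‖∑ j ∈ range q, ee (k * (j * α))‖ ≤ C * |(k : ℝ)| ^ 3 / q := by
  have hpi := Real.pi_pos
  by_cases hD : ∃ c : ℝ, 0 < c ∧ ∀ k : ℤ, k ≠ 0 → ∀ m : ℤ, c / (k : ℝ) ^ 2 ≤ |k * α - m|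
  · -- `α` is not very well approximable
    obtain ⟨c, hc, h⟩ := hD
    refine ⟨Real.pi / (2 * c), by positivity, fun Q => ?_⟩
    obtain ⟨x, hx, hx2⟩ := dirichlet hα Q
    have hd : (0 : ℝ) < x.den := by exact_mod_cast x.den_pos
    have hxr : (x : ℝ) = x.num / x.den := by exact_mod_cast (Rat.num_div_den x).symm
    refine ⟨x.den, hx.le, x.den_pos, x.num, rat_cop x, by rwa [← hxr], fun k hk => ?_⟩
    have hk0 : (0 : ℝ) < |(k : ℝ)| := abs_pos.2 (by exact_mod_cast hk)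
    have hk2 : (k : ℝ) ^ 2 = |(k : ℝ)| ^ 2 := (sq_abs _).symm
    obtain ⟨S, hS⟩ : ∃ S, S = ∑ j ∈ range x.den, ee (k * (j * α)) := ⟨_, rfl⟩
    have h1 := geo_sum α k x.den
    rw [← hS] at h1
    rw [← hS]
    have h2 : ‖ee (k * (x.den * α)) - 1‖ ≤ 2 * Real.pi * (|(k : ℝ)| * (1 / x.den)) := by
      refine (ee_sub_one_le _ (k * x.num)).trans ?_
      have h3 : (k : ℝ) * (x.den * α) - ((k * x.num : ℤ) : ℝ) =
          k * ((x.den : ℝ) * α - (x.num : ℤ)) := by push_cast; ring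
      rw [h3, abs_mul, rat_mul]
      gcongr
      calc (x.den : ℝ) * |α - x| ≤ x.den * (1 / (x.den : ℝ) ^ 2) := by gcongr
        _ = 1 / x.den := by field_simp
    have h3 : 4 * (c / |(k : ℝ)| ^ 2) ≤ ‖ee (k * α) - 1‖ := by
      refine le_trans ?_ (ee_sub_one_ge _)
      rw [← hk2]
      have := h k hk (round ((k : ℝ) * α))
      linarith
    have h4 : ‖S‖ * (4 * (c / |(k : ℝ)| ^ 2)) ≤ 2 * Real.pi * (|(k : ℝ)| * (1 / x.den)) := by
      calc ‖S‖ * (4 * (c / |(k : ℝ)| ^ 2)) ≤ ‖S‖ * ‖ee (k * α) - 1‖ := by gcongr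
        _ = ‖ee (k * (x.den * α)) - 1‖ := by rw [← norm_mul, h1]
        _ ≤ _ := h2
    have h5 : ‖S‖ ≤ 2 * Real.pi * (|(k : ℝ)| * (1 / x.den)) / (4 * (c / |(k : ℝ)| ^ 2)) := by
      rw [le_div_iff₀ (by positivity)]
      exact h4
    refine h5.trans (le_of_eq ?_)
    field_simp
    ring
  · -- `α` is very well approximable
    push Not at hD
    refine ⟨2 * Real.pi, by positivity, fun Q => ?_⟩
    obtain ⟨δ, hδ, hδQ⟩ := dist_pos hα Q
    obtain ⟨c, hc⟩ : ∃ c : ℝ, c = min 1 δ := ⟨_, rfl⟩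
    have hc0 : 0 < c := by rw [hc]; exact lt_min one_pos hδ
    have hc1 : c ≤ 1 := by rw [hc]; exact min_le_left _ _
    have hc2 : c ≤ δ := by rw [hc]; exact min_le_right _ _
    obtain ⟨k₀, hk₀, m₀, hm₀⟩ := hD c hc0
    obtain ⟨x, hx⟩ : ∃ x : ℚ, x = (m₀ : ℚ) / k₀ := ⟨_, rfl⟩
    have hd : (0 : ℝ) < x.den := by exact_mod_cast x.den_pos
    have hd1 : (1 : ℝ) ≤ x.den := by exact_mod_cast x.den_pos
    have hk₀' : (0 : ℝ) < |(k₀ : ℝ)| := abs_pos.2 (by exact_mod_cast hk₀)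
    have hdk : (x.den : ℝ) ≤ |(k₀ : ℝ)| := by
      have h1 : (x.den : ℤ) ∣ k₀ := by
        have := Rat.den_dvd m₀ k₀
        rwa [Rat.divInt_eq_div, ← hx] at this
      have h2 : (x.den : ℤ) ≤ |k₀| := by
        have := Int.le_of_dvd (abs_pos.2 hk₀) ((dvd_abs _ _).2 h1)
        exact this
      exact_mod_cast h2
    have hxr : (x : ℝ) = x.num / x.den := by exact_mod_cast (Rat.num_div_den x).symm
    have hx1 : |α - x| < c / (x.den : ℝ) ^ 3 := by
      have h1 : (k₀ : ℝ) * α - m₀ = k₀ * (α - x) := by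
        rw [hx]
        have : (k₀ : ℝ) ≠ 0 := by exact_mod_cast hk₀
        push_cast
        field_simp
      rw [h1, abs_mul, ← sq_abs (k₀ : ℝ)] at hm₀
      have h2 : |α - x| < c / |(k₀ : ℝ)| ^ 3 := by
        rw [lt_div_iff₀ (by positivity)]
        rw [lt_div_iff₀ (by positivity)] at hm₀
        calc |α - x| * |(k₀ : ℝ)| ^ 3 = |(k₀ : ℝ)| * |α - x| * |(k₀ : ℝ)| ^ 2 := by ring
          _ < c := hm₀
      refine h2.trans_le ?_
      gcongr
    have hQ : Q < x.den := by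
      by_contra hcon
      push Not at hcon
      have h3 := hδQ x.den x.den_pos hcon x.num
      rw [rat_mul] at h3
      have h4 : (x.den : ℝ) * |α - x| < c := by
        calc (x.den : ℝ) * |α - x| < x.den * (c / (x.den : ℝ) ^ 3) := by gcongr
          _ = c / (x.den : ℝ) ^ 2 := by field_simp
          _ ≤ c / 1 := by
              gcongr
              exact one_le_pow₀ hd1
          _ = c := div_one c
      linarith
    have hx3 : |α - x| ≤ 1 / (x.den : ℝ) ^ 3 := by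
      refine hx1.le.trans ?_
      gcongr
    refine ⟨x.den, hQ.le, x.den_pos, x.num, rat_cop x, ?_, fun k hk => ?_⟩
    · rw [← hxr]
      refine hx3.trans ?_
      have h1 : (x.den : ℝ) ^ 2 ≤ (x.den : ℝ) ^ 3 := pow_le_pow_right₀ hd1 (by norm_num)
      gcongr
    have hk0 : (1 : ℝ) ≤ |(k : ℝ)| := by
      have : (1 : ℤ) ≤ |k| := Int.one_le_abs hk
      exact_mod_cast this
    by_cases hdvd : (x.den : ℤ) ∣ k
    · -- trivial bound
      have h1 : ‖∑ j ∈ range x.den, ee (k * (j * α))‖ ≤ x.den := by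
        refine (norm_sum_le _ _).trans ?_
        simp only [ee_norm, sum_const, card_range, nsmul_eq_mul, mul_one, le_refl]
      have h2 : (x.den : ℝ) ≤ |(k : ℝ)| := by
        have h3 : (x.den : ℤ) ≤ |k| := Int.le_of_dvd (abs_pos.2 hk) ((dvd_abs _ _).2 hdvd)
        exact_mod_cast h3
      refine h1.trans ?_
      rw [le_div_iff₀ hd]
      have h4 : (1 : ℝ) ≤ 2 * Real.pi := by linarith [Real.pi_gt_three]
      calc (x.den : ℝ) * x.den ≤ |(k : ℝ)| * |(k : ℝ)| := by gcongr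
        _ = 1 * (|(k : ℝ)| * |(k : ℝ)| * 1) := by ring
        _ ≤ 2 * Real.pi * (|(k : ℝ)| * |(k : ℝ)| * |(k : ℝ)|) := by gcongr
        _ = 2 * Real.pi * |(k : ℝ)| ^ 3 := by ring
    · -- comparison with the rational number
      have hz : ∑ j ∈ range x.den, ee (k * (j * (x : ℝ))) = 0 := by
        have h1 := geo_sum (x : ℝ) k x.den
        have h2 : (k : ℝ) * (x.den * (x : ℝ)) = ((k * x.num : ℤ) : ℝ) := by
          rw [hxr]
          push_cast
          field_simp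
        rw [h2, ee_int, sub_self] at h1
        rcases mul_eq_zero.1 h1 with h3 | h3
        · exact h3
        · exfalso
          apply hdvd
          have h4 := ee_sub_one_ge ((k : ℝ) * (x : ℝ))
          rw [h3, norm_zero] at h4
          have h5 : |(k : ℝ) * (x : ℝ) - round ((k : ℝ) * (x : ℝ))| = 0 :=
            le_antisymm (by linarith) (abs_nonneg _)
          rw [abs_eq_zero, sub_eq_zero] at h5
          obtain ⟨z, hz⟩ : ∃ z : ℤ, z = round ((k : ℝ) * (x : ℝ)) := ⟨_, rfl⟩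
          rw [← hz, hxr] at h5
          have h6 : (k : ℝ) * x.num = z * x.den := by
            field_simp at h5
            linarith
          have h7 : k * x.num = z * x.den := by exact_mod_cast h6
          exact (rat_cop x).symm.dvd_of_dvd_mul_right (Dvd.intro_left z h7.symm)
      have h1 : ‖∑ j ∈ range x.den, ee (k * (j * α))‖ ≤
          ∑ j ∈ range x.den, 2 * Real.pi * (|(k : ℝ)| * (x.den * (1 / (x.den : ℝ) ^ 3))) := by
        have h2 : ∑ j ∈ range x.den, ee (k * (j * α)) =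
            ∑ j ∈ range x.den, (ee (k * (j * α)) - ee (k * (j * (x : ℝ)))) := by
          rw [sum_sub_distrib, hz, sub_zero]
        rw [h2]
        refine (norm_sum_le _ _).trans (sum_le_sum fun j hj => ?_)
        refine (ee_sub_ee_le _ _).trans ?_
        have h3 : (k : ℝ) * (j * α) - k * (j * (x : ℝ)) = k * (j * (α - x)) := by ring
        have hj1 : (j : ℝ) ≤ x.den := by exact_mod_cast (mem_range.1 hj).le
        rw [h3, abs_mul, abs_mul, abs_of_nonneg (Nat.cast_nonneg j : (0 : ℝ) ≤ j)]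
        gcongr
      refine h1.trans ?_
      rw [sum_const, card_range, nsmul_eq_mul, le_div_iff₀ hd]
      have h4 : (x.den : ℝ) * (2 * Real.pi * (|(k : ℝ)| * (x.den * (1 / (x.den : ℝ) ^ 3)))) * x.den =
          2 * Real.pi * |(k : ℝ)| := by
        field_simp
      rw [h4]
      have h5 : |(k : ℝ)| ≤ |(k : ℝ)| ^ 3 := le_self_pow₀ hk0 (by norm_num)
      gcongr

end Pool.Agent.K9h98.QP
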