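import Pool.Agent.K9h98.QP.A
import Pool.Agent.K9h98.QP.B
import Pool.Agent.K9h98.QP.C

/-! # The partial sums of quasi-periodic sequences are rigid -/

set_option autoImplicit false

open Filter Topology Finset

namespace Pool.Agent.K9h98.QP

/-- **Rigid partial sums**: there are arbitrarily long windows such that the sums of `a` over windows
of `q` consecutive indices are nearly the same for most of any `q` consecutive windows; the total
deviation is `≤ κ √q`. -/
def Rig (κ : ℝ) (a : ℕ → ℝ) : Prop := ∀ Q : ℕ, ∃ q : ℕ, Q ≤ q ∧ ∃ μ : ℝ, ∀ n : ℕ,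
  ∑ r ∈ range q, |∑ j ∈ range q, a (n + r + j) - μ| ≤ κ * Real.sqrt q

/-- the same with bounded deviations -/
def BRig (a : ℕ → ℝ) : Prop := ∃ C : ℝ, ∀ Q : ℕ, ∃ q : ℕ, Q ≤ q ∧ ∃ μ : ℝ, ∀ n : ℕ,
  ∑ r ∈ range q, |∑ j ∈ range q, a (n + r + j) - μ| ≤ C

lemma BRig.rig {a : ℕ → ℝ} (h : BRig a) {κ : ℝ} (hκ : 0 < κ) : Rig κ a := by
  obtain ⟨C, h⟩ := h
  intro Q
  obtain ⟨M, hM⟩ := exists_nat_ge ((C / κ) ^ 2)
  obtain ⟨q, hq, μ, h1⟩ := h (max Q M)
  refine ⟨q, (le_max_left _ _).trans hq, μ, fun n => (h1 n).trans ?_⟩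
  have h2 : (C / κ) ^ 2 ≤ q := hM.trans (by exact_mod_cast (le_max_right _ _).trans hq)
  have h3 : C / κ ≤ Real.sqrt q := Real.le_sqrt_of_sq_le h2
  rw [div_le_iff₀ hκ] at h3
  linarith

/-- rigidity of the phases -/
lemma Rig.phases {κ : ℝ} {a : ℕ → ℝ} (h : Rig κ a) {θ : ℝ} (hθ : 0 ≤ θ) : ∀ Q : ℕ, ∃ q : ℕ,
    Q ≤ q ∧ ∃ c : ℂ, ‖c‖ = 1 ∧ ∀ n, ‖BS (fun n => ee (θ * ∑ j ∈ range n, a j)) q (n + q) -
      c * BS (fun n => ee (θ * ∑ j ∈ range n, a j)) q n‖ ≤
        2 * Real.pi * θ * (κ * Real.sqrt q) := by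
  intro Q
  have hpi := Real.pi_pos
  obtain ⟨q, hq, μ, h1⟩ := h Q
  refine ⟨q, hq, ee (θ * μ), ee_norm _, fun n => ?_⟩
  unfold BS
  rw [mul_sum, ← sum_sub_distrib]
  have h2 : ∀ r ∈ range q, ‖ee (θ * ∑ j ∈ range (n + q + r), a j) -
      ee (θ * μ) * ee (θ * ∑ j ∈ range (n + r), a j)‖ ≤
        2 * Real.pi * θ * |∑ j ∈ range q, a (n + r + j) - μ| := by
    intro r _
    rw [← ee_add]
    refine (ee_sub_ee_le _ _).trans ?_
    have h3 : ∑ j ∈ range (n + q + r), a j = ∑ j ∈ range (n + r), a j +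
        ∑ j ∈ range q, a (n + r + j) := by
      rw [add_right_comm, sum_range_add]
    have h4 : θ * ∑ j ∈ range (n + q + r), a j - (θ * μ + θ * ∑ j ∈ range (n + r), a j) =
        θ * (∑ j ∈ range q, a (n + r + j) - μ) := by
      rw [h3]
      ring
    rw [h4, abs_mul, abs_of_nonneg hθ, mul_assoc (2 * Real.pi)]
  refine (norm_sum_le _ _).trans ((sum_le_sum h2).trans ?_)
  rw [← mul_sum]
  have := h1 n
  gcongr

/-- windows whose length is a period -/
lemma window_const {β : ℕ → ℝ} {L : ℕ} (hβ : ∀ j, β (j + L) = β j) (m : ℕ) :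
    ∑ j ∈ range L, β (m + j) = ∑ j ∈ range L, β j := by
  induction m with
  | zero => simp
  | succ m ih =>
    rw [← ih]
    have h1 : ∑ j ∈ range (L + 1), β (m + j) = ∑ j ∈ range L, β (m + j) + β m := by
      rw [sum_range_succ, hβ]
    rw [sum_range_succ'] at h1
    simp only [add_zero] at h1
    have h2 := add_right_cancel h1
    rw [← h2]
    exact sum_congr rfl fun j _ => by rw [add_right_comm, add_assoc]

lemma period_mul {β : ℕ → ℝ} {K : ℕ} (hβ : ∀ j, β (j + K) = β j) (q j : ℕ) :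
    β (j + K * q) = β j := by
  induction q with
  | zero => simp
  | succ q ih => rw [mul_add, mul_one, ← add_assoc, hβ, ih]

lemma sum_block (F : ℕ → ℝ) (K q : ℕ) :
    ∑ j ∈ range (K * q), F j = ∑ s ∈ range K, ∑ i ∈ range q, F (s + K * i) := by
  rw [sum_comm]
  induction q with
  | zero => simp
  | succ q ih =>
    rw [sum_range_succ, ← ih, mul_add, mul_one, sum_range_add]
    congr 1
    exact sum_congr rfl fun s _ => by rw [add_comm]

/-- a function given by a Fourier series with coefficients `c k`, `∑ |k|³ |c k| < ∞` -/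
structure Four (f : ℝ → ℝ) (c : ℤ → ℂ) : Prop where
  sum : Summable fun k : ℤ => |(k : ℝ)| ^ 3 * ‖c k‖
  eq : ∀ x : ℝ, HasSum (fun k : ℤ => c k * ee (k * x)) (f x : ℂ)

lemma Four.per {f : ℝ → ℝ} {c : ℤ → ℂ} (h : Four f c) : Function.Periodic f 1 := by
  intro x
  have h1 := h.eq (x + 1)
  have h2 := h.eq x
  have h3 : (fun k : ℤ => c k * ee (k * (x + 1))) = fun k : ℤ => c k * ee (k * x) := by
    funext k
    rw [mul_add, mul_one, ee_add, ee_int, mul_one]
  rw [h3] at h1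
  exact_mod_cast h1.unique h2

/-- sums of `f` along the rotation over a good denominator are nearly constant -/
lemma Four.window {f : ℝ → ℝ} {c : ℤ → ℂ} (h : Four f c) {α C : ℝ} {q : ℕ}
    (hC : ∀ k : ℤ, k ≠ 0 → ‖∑ j ∈ range q, ee (k * (j * α))‖ ≤ C * |(k : ℝ)| ^ 3 / q) (x : ℝ) :
    |∑ j ∈ range q, f (x + j * α) - q * (c 0).re| ≤
      C * (∑' k : ℤ, |(k : ℝ)| ^ 3 * ‖c k‖) / q := by
  have h1 : HasSum (fun k : ℤ => ∑ j ∈ range q, c k * ee (k * (x + j * α)))
      (∑ j ∈ range q, (f (x + j * α) : ℂ)) := hasSum_sum fun j _ => h.eq _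
  have h2 : HasSum (fun k : ℤ => if k = 0 then (q : ℂ) * c 0 else 0) ((q : ℂ) * c 0) :=
    hasSum_ite_eq 0 _
  have h3 := h1.sub h2
  have h4 : HasSum (fun k : ℤ => C * (|(k : ℝ)| ^ 3 * ‖c k‖) / q)
      (C * (∑' k : ℤ, |(k : ℝ)| ^ 3 * ‖c k‖) / q) :=
    (h.sum.hasSum.mul_left C).div_const _
  have h5 := h3.norm_le_of_bounded h4 fun k => by
    by_cases hk : k = 0
    · subst hk
      simp [ee_zero]
    · rw [if_neg hk, sub_zero]
      have e : ∑ j ∈ range q, c k * ee (k * (x + j * α)) =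
          c k * ee (k * x) * ∑ j ∈ range q, ee (k * (j * α)) := by
        rw [mul_sum]
        refine sum_congr rfl fun j _ => ?_
        rw [mul_add, ee_add, mul_assoc]
      rw [e, norm_mul, norm_mul, ee_norm, mul_one]
      calc ‖c k‖ * ‖∑ j ∈ range q, ee (k * (j * α))‖ ≤ ‖c k‖ * (C * |(k : ℝ)| ^ 3 / q) := by
            gcongr
            exact hC k hk
        _ = C * (|(k : ℝ)| ^ 3 * ‖c k‖) / q := by ring
  have h6 : (∑ j ∈ range q, f (x + j * α) - q * (c 0).re) =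
      (∑ j ∈ range q, (f (x + j * α) : ℂ) - (q : ℂ) * c 0).re := by
    rw [Complex.sub_re, Complex.re_sum]
    simp only [Complex.ofReal_re]
    congr 1
    rw [← Complex.ofReal_natCast, Complex.re_ofReal_mul]
  rw [h6]
  exact (Complex.abs_re_le_norm _).trans h5

lemma zmod_shift (K : ℕ) (m i : ℕ) : ((m + K * i : ℕ) : ZMod K) = (m : ZMod K) := by
  push_cast
  simp

/-- **quasi-periodic sequences are rigid** -/
theorem quasi_rig {K : ℕ} (hK : 1 ≤ K) {F G Φ : ZMod K → ℝ → ℝ} {c : ZMod K → ℤ → ℂ}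
    (hF : ∀ t, Four (F t) (c t)) (hG : ∀ t, Dom (G t) (Φ t)) (α : ℝ) :
    BRig fun j : ℕ => F j (j * α) + (G ((j + 1 : ℕ) : ZMod K) ((j + 1 : ℕ) * α) - G j (j * α)) := by
  -- the increments of `G` telescope
  have htel : ∀ m L : ℕ, ∑ j ∈ range L, (F ((m + j : ℕ) : ZMod K) ((m + j : ℕ) * α) +
      (G ((m + j + 1 : ℕ) : ZMod K) ((m + j + 1 : ℕ) * α) -
        G ((m + j : ℕ) : ZMod K) ((m + j : ℕ) * α))) =
        ∑ j ∈ range L, F ((m + j : ℕ) : ZMod K) ((m + j : ℕ) * α) +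
          (G ((m + L : ℕ) : ZMod K) ((m + L : ℕ) * α) - G ((m : ℕ) : ZMod K) ((m : ℕ) * α)) := by
    intro m L
    rw [sum_add_distrib]
    congr 1
    have := sum_range_sub (fun j : ℕ => G ((m + j : ℕ) : ZMod K) ((m + j : ℕ) * α)) L
    simp only [add_zero] at this
    exact this
  by_cases hα : Irrational α
  · -- irrational rotation
    have hKα : Irrational ((K : ℝ) * α) := hα.natCast_mul (by omega)
    obtain ⟨C, hC0, hC⟩ := good_den hKα
    obtain ⟨M, hM⟩ : ∃ M : ZMod K → ℝ, M = fun t => ∑' k : ℤ, |(k : ℝ)| ^ 3 * ‖c t k‖ := ⟨_, rfl⟩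
    obtain ⟨W, hW⟩ : ∃ W : ZMod K → ℝ, W = fun t => 4 * (Φ t 4 - Φ t (-2)) := ⟨_, rfl⟩
    have hwin : ∀ (h : ZMod K → ℝ) (m : ℕ), ∑ s ∈ range K, h ((m + s : ℕ) : ZMod K) =
        ∑ s ∈ range K, h ((s : ℕ) : ZMod K) := fun h m =>
      window_const (β := fun j => h ((j : ℕ) : ZMod K)) (fun j => by
        have := zmod_shift K j 1
        rw [mul_one] at this
        show h ((j + K : ℕ) : ZMod K) = h ((j : ℕ) : ZMod K)
        rw [this]) m
    refine ⟨K * (C * ∑ s ∈ range K, M s) + ∑ s ∈ range K, W s, fun Q => ?_⟩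
    obtain ⟨q, hqQ, hq1, p, hcop, hα2, hS⟩ := hC Q
    have hq0 : (0 : ℝ) < q := by exact_mod_cast hq1
    have hK0 : (0 : ℝ) < K := by exact_mod_cast hK
    refine ⟨K * q, ?_, ∑ s ∈ range K, q * (c s 0).re, fun n => ?_⟩
    · calc Q ≤ q := hqQ
        _ = 1 * q := (one_mul q).symm
        _ ≤ K * q := Nat.mul_le_mul_right q hK
    -- the part from `F`
    have hfw : ∀ m : ℕ, |∑ j ∈ range (K * q), F ((m + j : ℕ) : ZMod K) ((m + j : ℕ) * α) -
        ∑ s ∈ range K, q * (c s 0).re| ≤ C * (∑ s ∈ range K, M s) / q := by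
      intro m
      rw [sum_block, ← hwin (fun t => q * (c t 0).re) m, ← hwin M m, ← sum_sub_distrib]
      refine (abs_sum_le_sum_abs _ _).trans ?_
      rw [mul_sum, sum_div]
      refine sum_le_sum fun s _ => ?_
      have e : ∑ i ∈ range q, F ((m + (s + K * i) : ℕ) : ZMod K) ((m + (s + K * i) : ℕ) * α) =
          ∑ i ∈ range q, F ((m + s : ℕ) : ZMod K) ((m + s : ℕ) * α + i * (K * α)) := by
        refine sum_congr rfl fun i _ => ?_
        rw [← add_assoc, zmod_shift]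
        congr 1
        push_cast
        ring
      rw [e, hM]
      exact (hF _).window hS _
    -- the part from `G`
    have hgw : ∀ m : ℕ, ∑ r ∈ range (K * q),
        |G ((m + r + K * q : ℕ) : ZMod K) ((m + r + K * q : ℕ) * α) -
          G ((m + r : ℕ) : ZMod K) ((m + r : ℕ) * α)| ≤ ∑ s ∈ range K, W s := by
      intro m
      rw [sum_block, ← hwin W m]
      refine sum_le_sum fun s _ => ?_
      rw [hW]
      refine le_trans (le_of_eq ?_) ((hG _).sum_le hq1 hcop hα2 ((m + s : ℕ) * α))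
      refine sum_congr rfl fun i _ => ?_
      have e1 : ((m + (s + K * i) + K * q : ℕ) : ℝ) * α =
          ((m + s : ℕ) : ℝ) * α + i * (K * α) + q * (K * α) := by push_cast; ring
      have e2 : ((m + (s + K * i) : ℕ) : ℝ) * α = ((m + s : ℕ) : ℝ) * α + i * (K * α) := by
        push_cast; ring
      rw [e1, e2, zmod_shift, ← add_assoc, zmod_shift]
    have hterm : ∀ r ∈ range (K * q), |∑ j ∈ range (K * q),
        (F ((n + r + j : ℕ) : ZMod K) ((n + r + j : ℕ) * α) +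
          (G ((n + r + j + 1 : ℕ) : ZMod K) ((n + r + j + 1 : ℕ) * α) -
            G ((n + r + j : ℕ) : ZMod K) ((n + r + j : ℕ) * α))) -
          ∑ s ∈ range K, q * (c s 0).re| ≤
            C * (∑ s ∈ range K, M s) / q +
              |G ((n + r + K * q : ℕ) : ZMod K) ((n + r + K * q : ℕ) * α) -
                G ((n + r : ℕ) : ZMod K) ((n + r : ℕ) * α)| := by
      intro r _
      rw [htel]
      have e : ∑ j ∈ range (K * q), F ((n + r + j : ℕ) : ZMod K) ((n + r + j : ℕ) * α) +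
          (G ((n + r + K * q : ℕ) : ZMod K) ((n + r + K * q : ℕ) * α) -
            G ((n + r : ℕ) : ZMod K) ((n + r : ℕ) * α)) - ∑ s ∈ range K, q * (c s 0).re =
          (∑ j ∈ range (K * q), F ((n + r + j : ℕ) : ZMod K) ((n + r + j : ℕ) * α) -
            ∑ s ∈ range K, q * (c s 0).re) +
            (G ((n + r + K * q : ℕ) : ZMod K) ((n + r + K * q : ℕ) * α) -
              G ((n + r : ℕ) : ZMod K) ((n + r : ℕ) * α)) := by ring
      rw [e]
      refine (abs_add_le _ _).trans ?_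
      gcongr
      exact hfw (n + r)
    refine (sum_le_sum hterm).trans ?_
    rw [sum_add_distrib, sum_const, card_range, nsmul_eq_mul]
    have h7 : ((K * q : ℕ) : ℝ) * (C * (∑ s ∈ range K, M s) / q) =
        K * (C * ∑ s ∈ range K, M s) := by
      push_cast
      field_simp
    rw [h7]
    gcongr
    exact hgw n
  · -- rational rotation: the sequence is periodic
    unfold Irrational at hα
    push Not at hα
    obtain ⟨x, hx⟩ := hα
    refine ⟨0, fun Q => ?_⟩
    obtain ⟨L, hL⟩ : ∃ L : ℕ, L = K * (x.den * (Q + 1)) := ⟨_, rfl⟩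
    have hden : (x.den : ℝ) ≠ 0 := by exact_mod_cast x.den_nz
    have hxr : α = x.num / x.den := by rw [← hx]; exact_mod_cast (Rat.num_div_den x).symm
    have hLα : (L : ℝ) * α = ((K * (x.num * (Q + 1)) : ℤ) : ℝ) := by
      rw [hL, hxr]
      push_cast
      field_simp
    have hper : ∀ {H : ℝ → ℝ}, Function.Periodic H 1 → ∀ j : ℕ, H ((j + L : ℕ) * α) =
        H ((j : ℕ) * α) := by
      intro H hH j
      have e : ((j + L : ℕ) : ℝ) * α = (j : ℝ) * α + ((K * (x.num * (Q + 1)) : ℤ) : ℝ) * 1 := by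
        push_cast at hLα ⊢
        rw [mul_one, ← hLα]
        ring
      rw [e]
      exact hH.int_mul _ _
    have hz : ∀ j : ℕ, ((j + L : ℕ) : ZMod K) = (j : ZMod K) := fun j => by
      rw [hL]
      exact zmod_shift K j _
    refine ⟨L, ?_, ∑ j ∈ range L, (F j ((j : ℕ) * α) +
      (G ((j + 1 : ℕ) : ZMod K) ((j + 1 : ℕ) * α) - G j ((j : ℕ) * α))), fun n => ?_⟩
    · rw [hL]
      have h1 : 1 ≤ x.den := x.den_pos
      calc Q ≤ 1 * (1 * (Q + 1)) := by omega
        _ ≤ K * (x.den * (Q + 1)) := by gcongr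
    · refine (sum_eq_zero fun r _ => ?_).le
      rw [abs_eq_zero, sub_eq_zero]
      refine window_const (β := fun j : ℕ => F j ((j : ℕ) * α) +
        (G ((j + 1 : ℕ) : ZMod K) ((j + 1 : ℕ) * α) - G j ((j : ℕ) * α))) (fun j => ?_) (n + r)
      have e1 : j + L + 1 = j + 1 + L := by ring
      show F ((j + L : ℕ) : ZMod K) ((j + L : ℕ) * α) +
        (G ((j + L + 1 : ℕ) : ZMod K) ((j + L + 1 : ℕ) * α) -
          G ((j + L : ℕ) : ZMod K) ((j + L : ℕ) * α)) = _
      rw [e1, hz, hz, hper (hF _).per, hper (hG _).per, hper (hG _).per]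

end Pool.Agent.K9h98.QP
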