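import Pool.Agent.K9h98.QP.A

/-! # Block sums are far from rotated neighbouring block sums (idea of helper44)

If the mean of `|w (n) + … + w (n + R - 1)|² / R` tends to `c`, then the mean square of
`S (n + Q) - z S (n)`, `S (n)` the block sum of length `Q`, is at least `((2 - √2) c - ε) Q`,
for all `|z| = 1` simultaneously. -/

set_option autoImplicit false

open Filter Topology Finset

namespace Pool.Agent.K9h98.QP

lemma sum_Icc_range (u : ℕ → ℂ) (N : ℕ) : ∑ n ∈ Icc 1 N, u n = ∑ i ∈ range N, u (i + 1) := by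
  rw [range_eq_Ico, sum_Ico_add' u 0 N 1]
  refine sum_congr ?_ fun _ _ => rfl
  ext k
  rw [mem_Icc, mem_Ico]
  omega

/-- shifting the summation index -/
lemma shift_sum {u : ℕ → ℂ} {M : ℝ} (hu : ∀ n, ‖u n‖ ≤ M) (N Q : ℕ) :
    ‖∑ n ∈ Icc 1 N, u (n + Q) - ∑ n ∈ Icc 1 N, u n‖ ≤ 2 * Q * M := by
  rw [sum_Icc_range (fun n => u (n + Q)), sum_Icc_range u]
  have h1 : ∑ i ∈ range N, u (i + 1 + Q) = ∑ i ∈ range (N + Q), u (i + 1) -
      ∑ i ∈ range Q, u (i + 1) := by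
    rw [add_comm N Q, sum_range_add]
    rw [add_sub_cancel_left]
    exact sum_congr rfl fun i _ => by congr 1; ring
  rw [h1, sum_range_add]
  have e : ∑ i ∈ range N, u (i + 1) + ∑ i ∈ range Q, u (N + i + 1) - ∑ i ∈ range Q, u (i + 1) -
      ∑ i ∈ range N, u (i + 1) = ∑ i ∈ range Q, u (N + i + 1) - ∑ i ∈ range Q, u (i + 1) := by
    ring
  rw [e]
  have h2 : ∀ v : ℕ → ℂ, (∀ i, ‖v i‖ ≤ M) → ‖∑ i ∈ range Q, v i‖ ≤ Q * M := by
    intro v hv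
    refine (norm_sum_le _ _).trans ((sum_le_sum fun i _ => hv i).trans (le_of_eq ?_))
    rw [sum_const, card_range, nsmul_eq_mul]
  refine (norm_sub_le _ _).trans ?_
  have h3 := h2 (fun i => u (N + i + 1)) fun i => hu _
  have h4 := h2 (fun i => u (i + 1)) fun i => hu _
  linarith

lemma BS_norm {w : ℕ → ℂ} (hw : ∀ n, ‖w n‖ ≤ 1) (Q n : ℕ) : ‖BS w Q n‖ ≤ Q := by
  unfold BS
  refine (norm_sum_le _ _).trans ((sum_le_sum fun i _ => hw _).trans (le_of_eq ?_))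
  rw [sum_const, card_range, nsmul_eq_mul, mul_one]

open ComplexConjugate in
/-- the pointwise identities -/
lemma sq2 (X Y : ℂ) : ‖X + Y‖ ^ 2 = ‖X‖ ^ 2 + ‖Y‖ ^ 2 + 2 * (X * conj Y).re := by
  simp only [Complex.sq_norm, Complex.normSq_apply, Complex.add_re, Complex.add_im, Complex.mul_re,
    Complex.conj_re, Complex.conj_im]
  ring

open ComplexConjugate in
lemma sq3 (X Y Z : ℂ) : ‖X + Y + Z‖ ^ 2 = ‖X‖ ^ 2 + ‖Y‖ ^ 2 + ‖Z‖ ^ 2 + 2 * (X * conj Y).re +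
    2 * (Y * conj Z).re + 2 * (X * conj Z).re := by
  simp only [Complex.sq_norm, Complex.normSq_apply, Complex.add_re, Complex.add_im, Complex.mul_re,
    Complex.conj_re, Complex.conj_im]
  ring

open ComplexConjugate in
lemma sqI (X Y Z : ℂ) {t : ℝ} : ‖X + (t * Complex.I) * Y - Z‖ ^ 2 =
    ‖X‖ ^ 2 + t ^ 2 * ‖Y‖ ^ 2 + ‖Z‖ ^ 2 + 2 * t * (X * conj Y).im + 2 * t * (Y * conj Z).im -
      2 * (X * conj Z).re := by
  simp only [Complex.sq_norm, Complex.normSq_apply, Complex.add_re, Complex.add_im, Complex.sub_re,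
    Complex.sub_im, Complex.mul_re, Complex.mul_im, Complex.conj_re, Complex.conj_im,
    Complex.ofReal_re, Complex.ofReal_im, Complex.I_re, Complex.I_im]
  ring

open ComplexConjugate in
lemma sqz (X Y z : ℂ) (hz : ‖z‖ = 1) : ‖Y - z * X‖ ^ 2 =
    ‖X‖ ^ 2 + ‖Y‖ ^ 2 - 2 * (z * (X * conj Y)).re := by
  have h1 : z.re ^ 2 + z.im ^ 2 = 1 := by
    have h5 := Complex.sq_norm z
    rw [hz, Complex.normSq_apply] at h5
    rw [pow_two, pow_two, ← h5, one_pow]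
  simp only [Complex.sq_norm, Complex.normSq_apply, Complex.sub_re,
    Complex.sub_im, Complex.mul_re, Complex.mul_im, Complex.conj_re, Complex.conj_im]
  linear_combination (X.re ^ 2 + X.im ^ 2) * h1

open ComplexConjugate in
/-- the inequality for fixed `N` -/
lemma fixed {w : ℕ → ℂ} (hw : ∀ n, ‖w n‖ ≤ 1) {c ε : ℝ} (hε : 0 < ε) {Q N : ℕ}
    (hQ : 1 ≤ Q) (hN : 1 ≤ N) (h1 : |VQ w Q N - c| < ε) (h2 : |VQ w (2 * Q) N - c| < ε)
    (h3 : |VQ w (3 * Q) N - c| < ε) (hNQ : 2 * (Q : ℝ) ^ 2 ≤ ε * N) {z : ℂ} (hz : ‖z‖ = 1) :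
    ((2 - Real.sqrt 2) * c - 20 * ε) * (N * Q) ≤
      ∑ n ∈ Icc 1 N, ‖BS w Q (n + Q) - z * BS w Q n‖ ^ 2 := by
  have hQ0 : (0 : ℝ) < Q := by exact_mod_cast hQ
  have hN0 : (0 : ℝ) < N := by exact_mod_cast hN
  obtain ⟨S, hS⟩ : ∃ S : ℝ, S = N * Q := ⟨_, rfl⟩
  have hS0 : 0 < S := by rw [hS]; positivity
  obtain ⟨X, hX⟩ : ∃ X : ℕ → ℂ, X = BS w Q := ⟨_, rfl⟩
  have hXn : ∀ n, ‖X n‖ ≤ Q := fun n => by rw [hX]; exact BS_norm hw Q n
  obtain ⟨a, ha⟩ : ∃ a : ℝ, a = ∑ n ∈ Icc 1 N, ‖X n‖ ^ 2 := ⟨_, rfl⟩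
  obtain ⟨b, hb⟩ : ∃ b : ℝ, b = ∑ n ∈ Icc 1 N, ‖X (n + Q)‖ ^ 2 := ⟨_, rfl⟩
  obtain ⟨d, hd⟩ : ∃ d : ℝ, d = ∑ n ∈ Icc 1 N, ‖X (n + Q + Q)‖ ^ 2 := ⟨_, rfl⟩
  obtain ⟨P, hP⟩ : ∃ P : ℂ, P = ∑ n ∈ Icc 1 N, X n * conj (X (n + Q)) := ⟨_, rfl⟩
  obtain ⟨P', hP'⟩ : ∃ P' : ℂ, P' = ∑ n ∈ Icc 1 N, X (n + Q) * conj (X (n + Q + Q)) := ⟨_, rfl⟩
  obtain ⟨R, hR⟩ : ∃ R : ℂ, R = ∑ n ∈ Icc 1 N, X n * conj (X (n + Q + Q)) := ⟨_, rfl⟩
  -- the shift errors
  have hsh : 2 * (Q : ℝ) * (Q : ℝ) ^ 2 ≤ ε * S := by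
    rw [hS]
    calc 2 * (Q : ℝ) * (Q : ℝ) ^ 2 = (2 * (Q : ℝ) ^ 2) * Q := by ring
      _ ≤ (ε * N) * Q := by gcongr
      _ = ε * (N * Q) := by ring
  have hsq : ∀ k : ℕ, |∑ n ∈ Icc 1 N, ‖X (n + k + Q)‖ ^ 2 - ∑ n ∈ Icc 1 N, ‖X (n + k)‖ ^ 2| ≤
      ε * S := by
    intro k
    have h5 := shift_sum (u := fun n => ((‖X (n + k)‖ ^ 2 : ℝ) : ℂ)) (M := (Q : ℝ) ^ 2)
      (fun n => by
        rw [Complex.norm_real, Real.norm_of_nonneg (by positivity)]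
        exact pow_le_pow_left₀ (norm_nonneg _) (hXn _) 2) N Q
    have e : ∀ n, n + Q + k = n + k + Q := fun n => by ring
    simp only [e] at h5
    rw [← Complex.ofReal_sum, ← Complex.ofReal_sum, ← Complex.ofReal_sub, Complex.norm_real,
      Real.norm_eq_abs] at h5
    exact h5.trans hsh
  have hba := hsq 0
  simp only [add_zero] at hba
  rw [← ha, ← hb] at hba
  have hdb := hsq Q
  rw [← hb, ← hd] at hdb
  have hPP : ‖P' - P‖ ≤ ε * S := by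
    rw [hP, hP']
    refine (shift_sum (u := fun n => X n * conj (X (n + Q))) (M := (Q : ℝ) ^ 2) (fun n => ?_)
      N Q).trans hsh
    rw [norm_mul, Complex.norm_conj, pow_two]
    have := hXn n
    have := hXn (n + Q)
    gcongr
  -- the three mean squares
  have hV1 : a = S * VQ w Q N := by
    rw [ha, hS, hX]
    unfold VQ
    field_simp
  have hV2 : 2 * S * VQ w (2 * Q) N = a + b + 2 * P.re := by
    have e1 : 2 * S * VQ w (2 * Q) N = ∑ n ∈ Icc 1 N, ‖BS w (2 * Q) n‖ ^ 2 := by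
      rw [hS]
      unfold VQ
      push_cast
      field_simp
    have e2 : ∀ n, ‖BS w (2 * Q) n‖ ^ 2 =
        ‖X n‖ ^ 2 + ‖X (n + Q)‖ ^ 2 + 2 * (X n * conj (X (n + Q))).re := by
      intro n
      rw [two_mul, BS_add, ← hX, sq2]
    rw [e1, ha, hb, hP, Complex.re_sum, mul_sum, ← sum_add_distrib, ← sum_add_distrib]
    exact sum_congr rfl fun n _ => e2 n
  have hV3 : 3 * S * VQ w (3 * Q) N = a + b + d + 2 * P.re + 2 * P'.re + 2 * R.re := by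
    have e1 : 3 * S * VQ w (3 * Q) N = ∑ n ∈ Icc 1 N, ‖BS w (3 * Q) n‖ ^ 2 := by
      rw [hS]
      unfold VQ
      push_cast
      field_simp
    have e2 : ∀ n, ‖BS w (3 * Q) n‖ ^ 2 =
        ‖X n‖ ^ 2 + ‖X (n + Q)‖ ^ 2 + ‖X (n + Q + Q)‖ ^ 2 + 2 * (X n * conj (X (n + Q))).re +
          2 * (X (n + Q) * conj (X (n + Q + Q))).re + 2 * (X n * conj (X (n + Q + Q))).re := by
      intro n
      have e3 : 3 * Q = Q + (Q + Q) := by ring
      rw [e3, BS_add, BS_add, ← hX, ← add_assoc, sq3]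
    rw [e1, ha, hb, hd, hP, hP', hR, Complex.re_sum, Complex.re_sum, Complex.re_sum, mul_sum,
      mul_sum, mul_sum, ← sum_add_distrib, ← sum_add_distrib, ← sum_add_distrib, ← sum_add_distrib,
      ← sum_add_distrib]
    exact sum_congr rfl fun n _ => e2 n
  -- positivity
  have hpos : ∀ t : ℝ, 0 ≤ a + t ^ 2 * b + d + 2 * t * P.im + 2 * t * P'.im - 2 * R.re := by
    intro t
    have e1 : a + t ^ 2 * b + d + 2 * t * P.im + 2 * t * P'.im - 2 * R.re =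
        ∑ n ∈ Icc 1 N, ‖X n + (t * Complex.I) * X (n + Q) - X (n + Q + Q)‖ ^ 2 := by
      rw [ha, hb, hd, hP, hP', hR, Complex.im_sum, Complex.im_sum, Complex.re_sum, mul_sum,
        mul_sum, mul_sum, mul_sum, ← sum_add_distrib, ← sum_add_distrib, ← sum_add_distrib,
        ← sum_add_distrib, ← sum_sub_distrib]
      exact sum_congr rfl fun n _ => (sqI _ _ _).symm
    rw [e1]
    exact sum_nonneg fun n _ => by positivity
  -- the quantity in question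
  have hz1 : ∑ n ∈ Icc 1 N, ‖BS w Q (n + Q) - z * BS w Q n‖ ^ 2 = a + b - 2 * (z * P).re := by
    rw [← hX, ha, hb, hP, mul_sum, Complex.re_sum, mul_sum, ← sum_add_distrib, ← sum_sub_distrib]
    exact sum_congr rfl fun n _ => sqz _ _ _ hz
  have hzP : (z * P).re ≤ |P.re| + |P.im| := by
    refine (Complex.re_le_norm _).trans ?_
    rw [norm_mul, hz, one_mul]
    exact Complex.norm_le_abs_re_add_abs_im P
  -- numbers
  obtain ⟨V1, hV1e⟩ : ∃ V, V = VQ w Q N := ⟨_, rfl⟩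
  obtain ⟨V2, hV2e⟩ : ∃ V, V = VQ w (2 * Q) N := ⟨_, rfl⟩
  obtain ⟨V3, hV3e⟩ : ∃ V, V = VQ w (3 * Q) N := ⟨_, rfl⟩
  rw [← hV1e] at h1 hV1
  rw [← hV2e] at h2 hV2
  rw [← hV3e] at h3 hV3
  have a1 := abs_lt.1 h1
  have a2 := abs_lt.1 h2
  have a3 := abs_lt.1 h3
  have m1 : S * (c - ε) ≤ S * V1 := mul_le_mul_of_nonneg_left (by linarith) hS0.le
  have m1' : S * V1 ≤ S * (c + ε) := mul_le_mul_of_nonneg_left (by linarith) hS0.le
  have m2 : S * (c - ε) ≤ S * V2 := mul_le_mul_of_nonneg_left (by linarith) hS0.le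
  have m2' : S * V2 ≤ S * (c + ε) := mul_le_mul_of_nonneg_left (by linarith) hS0.le
  have m3 : S * (c - ε) ≤ S * V3 := mul_le_mul_of_nonneg_left (by linarith) hS0.le
  have m3' : S * V3 ≤ S * (c + ε) := mul_le_mul_of_nonneg_left (by linarith) hS0.le
  have b1 := abs_le.1 hba
  have b2 := abs_le.1 hdb
  have p1 : |P'.re - P.re| ≤ ε * S := by
    have := Complex.abs_re_le_norm (P' - P)
    rw [Complex.sub_re] at this
    exact this.trans hPP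
  have p2 : |P'.im - P.im| ≤ ε * S := by
    have := Complex.abs_im_le_norm (P' - P)
    rw [Complex.sub_im] at this
    exact this.trans hPP
  have q1 := abs_le.1 p1
  have q2 := abs_le.1 p2
  obtain ⟨t, ht⟩ : ∃ t : ℝ, t = Real.sqrt 2 := ⟨_, rfl⟩
  have ht2 : t ^ 2 = 2 := by rw [ht]; exact Real.sq_sqrt (by norm_num)
  have ht0 : 0 < t := by rw [ht]; positivity
  have ht1 : t ≤ 3 / 2 := by
    by_contra hcon
    push Not at hcon
    have : (3 / 2 : ℝ) ^ 2 < t ^ 2 := by gcongr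
    rw [ht2] at this
    norm_num at this
  have r1 : 2 * S * V2 = 2 * (S * V2) := by ring
  have r2 : 3 * S * V3 = 3 * (S * V3) := by ring
  have hεS : 0 < ε * S := by positivity
  have n1 : S * (c - ε) = S * c - ε * S := by ring
  have n2 : S * (c + ε) = S * c + ε * S := by ring
  rw [n1] at m1 m2 m3
  rw [n2] at m1' m2' m3'
  rw [r1] at hV2
  rw [r2] at hV3
  have hre : |P.re| ≤ 5 / 2 * (ε * S) := by
    rw [abs_le]
    constructor <;> linarith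
  have hre' := abs_le.1 hre
  have hRre : -(21 / 2) * (ε * S) ≤ R.re := by linarith
  have hpp := hpos t
  have hpm := hpos (-t)
  rw [ht2] at hpp
  rw [neg_sq, ht2] at hpm
  -- the imaginary part
  have hI1 : t * P.im ≤ S * c + 29 / 4 * (ε * S) + t * (ε * S) / 2 := by
    have e1 : 2 * -t * P.im + 2 * -t * P'.im = -(4 * (t * P.im)) - 2 * (t * (P'.im - P.im)) := by
      ring
    have e2 : -(t * (ε * S)) ≤ t * (P'.im - P.im) := by
      have := mul_le_mul_of_nonneg_left q2.1 ht0.le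
      linarith
    linarith
  have hI2 : -(S * c + 29 / 4 * (ε * S) + t * (ε * S) / 2) ≤ t * P.im := by
    have e1 : 2 * t * P.im + 2 * t * P'.im = 4 * (t * P.im) + 2 * (t * (P'.im - P.im)) := by
      ring
    have e2 : t * (P'.im - P.im) ≤ t * (ε * S) := mul_le_mul_of_nonneg_left q2.2 ht0.le
    linarith
  have hI3 : t * |P.im| ≤ S * c + 29 / 4 * (ε * S) + t * (ε * S) / 2 := by
    have : t * |P.im| = |t * P.im| := by rw [abs_mul, abs_of_pos ht0]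
    rw [this]
    exact abs_le.2 ⟨hI2, hI1⟩
  have hI4 : 2 * |P.im| ≤ t * (S * c) + 29 / 4 * (t * (ε * S)) + ε * S := by
    have e1 : 2 * |P.im| = t * (t * |P.im|) := by
      rw [← mul_assoc, ← pow_two, ht2]
    rw [e1]
    calc t * (t * |P.im|) ≤ t * (S * c + 29 / 4 * (ε * S) + t * (ε * S) / 2) := by gcongr
      _ = t * (S * c) + 29 / 4 * (t * (ε * S)) + t ^ 2 * (ε * S) / 2 := by ring
      _ = _ := by rw [ht2]; ring
  have hI5 : t * (ε * S) ≤ 3 / 2 * (ε * S) := by gcongr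
  rw [hz1, ← hS, ← ht]
  have hfin : ((2 - t) * c - 20 * ε) * S = 2 * (S * c) - t * (S * c) - 20 * (ε * S) := by ring
  rw [hfin]
  linarith

/-- **non-rigidity** -/
theorem nonrig {l : Filter ℕ} (hl : l ≤ atTop) {w : ℕ → ℂ} (hw : ∀ n, ‖w n‖ ≤ 1) {c : ℝ}
    (hV : ∀ ε : ℝ, 0 < ε → ∃ R₀ : ℕ, ∀ R : ℕ, R₀ ≤ R → ∀ᶠ N in l, |VQ w R N - c| < ε)
    {ε : ℝ} (hε : 0 < ε) : ∃ Q₀ : ℕ, ∀ Q : ℕ, Q₀ ≤ Q → ∀ᶠ N in l, ∀ z : ℂ, ‖z‖ = 1 →
      ((2 - Real.sqrt 2) * c - ε) * (N * Q) ≤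
        ∑ n ∈ Icc 1 N, ‖BS w Q (n + Q) - z * BS w Q n‖ ^ 2 := by
  obtain ⟨R₀, h⟩ := hV (ε / 20) (by positivity)
  refine ⟨max R₀ 1, fun Q hQ => ?_⟩
  have hQ0 : R₀ ≤ Q := (le_max_left _ _).trans hQ
  have hQ1 : 1 ≤ Q := (le_max_right _ _).trans hQ
  obtain ⟨M, hM⟩ := exists_nat_ge (2 * (Q : ℝ) ^ 2 / (ε / 20))
  filter_upwards [h Q hQ0, h (2 * Q) (by omega), h (3 * Q) (by omega),
    hl (eventually_ge_atTop (max M 1))] with N h1 h2 h3 h4 z hz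
  have hN1 : 1 ≤ N := (le_max_right _ _).trans h4
  have hNM : (M : ℝ) ≤ N := by exact_mod_cast (le_max_left _ _).trans h4
  have hNQ : 2 * (Q : ℝ) ^ 2 ≤ ε / 20 * N := by
    have h5 := hM.trans hNM
    rw [div_le_iff₀ (by positivity)] at h5
    linarith
  have h6 := fixed hw (by positivity : 0 < ε / 20) hQ1 hN1 h1 h2 h3 hNQ hz
  have e : 20 * (ε / 20) = ε := by ring
  rwa [e] at h6

end Pool.Agent.K9h98.QP
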