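import Pool.Agent.K9h45.PL.Fin
import Pool.Agent.K9h98.QP.D
import Pool.Agent.K9h98.QP.E

/-! # The spacings of the zeta zeros do not follow rigid patterns -/

set_option autoImplicit false

open Filter Topology Finset

namespace Pool.Agent.K9h98.QP

open Pool.Agent.K9h45.PL
open Pool.Agent.Y749.AH

lemma PP_ee (θ : ℝ) (a : ℕ → ℝ) : PP θ a = fun n => ee (θ * ∑ j ∈ range n, a j) := rfl

lemma VV_VQ (w : ℕ → ℂ) (R N : ℕ) : VV w R N = VQ w R N := rfl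

/-- the law of mean squares implies non-rigidity -/
lemma MS.far {l : Filter ℕ} (hl : l ≤ atTop) {w : ℕ → ℂ} (hw : ∀ n, ‖w n‖ ≤ 1) {c : ℝ}
    (h : MS l w c) {ε : ℝ} (hε : 0 < ε) : ∃ Q₀ : ℕ, ∀ Q : ℕ, Q₀ ≤ Q → ∀ᶠ N in l, ∀ z : ℂ, ‖z‖ = 1 →
      ((2 - Real.sqrt 2) * c - ε) * (N * Q) ≤
        ∑ n ∈ Icc 1 N, ‖BS w Q (n + Q) - z * BS w Q n‖ ^ 2 :=
  nonrig hl hw (fun ε' hε' => by
    obtain ⟨R₀, h1⟩ := h ε' hε'
    exact ⟨R₀, fun R hR => h1 R hR⟩) hε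

/-- rigid phases violate the law of mean squares -/
lemma rig_MS {l : Filter ℕ} [l.NeBot] (hl : l ≤ atTop) {κ : ℝ} {a : ℕ → ℝ} (ha : Rig κ a)
    {θ v : ℝ} (hθ : 0 ≤ θ) (hv : (2 * Real.pi * θ * κ) ^ 2 < (2 - Real.sqrt 2) * v)
    (h : MS l (PP θ a) v) : False := by
  obtain ⟨ε, hε⟩ : ∃ ε : ℝ, ε = ((2 - Real.sqrt 2) * v - (2 * Real.pi * θ * κ) ^ 2) / 2 := ⟨_, rfl⟩
  have hε0 : 0 < ε := by rw [hε]; linarith
  obtain ⟨Q₀, h1⟩ := MS.far hl (fun n => (PP_norm θ a n).le) h hε0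
  obtain ⟨q, hq, c, hc, h2⟩ := ha.phases hθ (max Q₀ 1)
  have hq0 : Q₀ ≤ q := (le_max_left _ _).trans hq
  have hq1 : 1 ≤ q := (le_max_right _ _).trans hq
  obtain ⟨N, h3, h4⟩ := ((h1 q hq0).and (hl (eventually_ge_atTop 1))).exists
  have hqr : (0 : ℝ) < q := by exact_mod_cast hq1
  have hNr : (0 : ℝ) < N := by exact_mod_cast h4
  have h5 := h3 c hc
  have h6 : ∑ n ∈ Icc 1 N, ‖BS (PP θ a) q (n + q) - c * BS (PP θ a) q n‖ ^ 2 ≤
      N * ((2 * Real.pi * θ * κ) ^ 2 * q) := by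
    have h7 : ∀ n ∈ Icc 1 N, ‖BS (PP θ a) q (n + q) - c * BS (PP θ a) q n‖ ^ 2 ≤
        (2 * Real.pi * θ * κ) ^ 2 * q := by
      intro n _
      have h8 := pow_le_pow_left₀ (norm_nonneg _) (h2 n) 2
      refine h8.trans (le_of_eq ?_)
      have h9 : Real.sqrt q ^ 2 = q := Real.sq_sqrt hqr.le
      calc (2 * Real.pi * θ * (κ * Real.sqrt q)) ^ 2 =
          (2 * Real.pi * θ * κ) ^ 2 * Real.sqrt q ^ 2 := by ring
        _ = _ := by rw [h9]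
    refine (sum_le_sum h7).trans (le_of_eq ?_)
    rw [sum_const, Nat.card_Icc, nsmul_eq_mul, Nat.add_sub_cancel]
  have h7 := h5.trans h6
  have h8 : ((2 - Real.sqrt 2) * v - ε) * (N * q) - N * ((2 * Real.pi * θ * κ) ^ 2 * q) =
      ε * (N * q) := by
    rw [hε]
    ring
  have h9 : 0 < ε * (N * q) := by positivity
  linarith

lemma num_ineq : 36 * Real.pi ^ 2 / 625 < 2 - Real.sqrt 2 := by
  have h1 : Real.pi < 3.1416 := Real.pi_lt_d4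
  have h2 : Real.pi ^ 2 < 3.1416 ^ 2 := by
    have := Real.pi_pos
    gcongr
  have h3 : Real.sqrt 2 < 1.4143 := by
    rw [Real.sqrt_lt' (by norm_num)]
    norm_num
  norm_num at h2 h3
  linarith

/-- the admissible constant -/
lemma kappa_ineq {s : ℝ} (hs : 1 / 2 < s) :
    (2 * Real.pi * (1 / s) * (3 / 25 * Real.sqrt (s * min 1 (2 * s - 1)))) ^ 2 <
      (2 - Real.sqrt 2) * min (1 / s) (2 - 1 / s) := by
  have hs0 : 0 < s := by linarith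
  obtain ⟨m, hm⟩ : ∃ m : ℝ, m = min 1 (2 * s - 1) := ⟨_, rfl⟩
  have hm0 : 0 < m := by rw [hm]; exact lt_min one_pos (by linarith)
  have e1 : min (1 / s) (2 - 1 / s) = m / s := by
    have h1 : 2 - 1 / s = (2 * s - 1) / s := by field_simp
    rw [h1, hm, ← min_div_div_right hs0.le]
  have e2 : Real.sqrt (s * m) ^ 2 = s * m := Real.sq_sqrt (by positivity)
  rw [← hm, e1]
  have e3 : (2 * Real.pi * (1 / s) * (3 / 25 * Real.sqrt (s * m))) ^ 2 =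
      36 * Real.pi ^ 2 / 625 * (Real.sqrt (s * m) ^ 2 / s ^ 2) := by ring
  have e4 : s * m / s ^ 2 = m / s := by field_simp
  rw [e3, e2, e4]
  have := num_ineq
  gcongr

lemma sp_mono {l : Filter ℕ} {B B' : ℕ → Prop} (h : Sp l B) (hB : ∀ j, B' j → B j) : Sp l B' := by
  unfold Sp at h ⊢
  refine squeeze_zero (fun N => by positivity) (fun N => ?_) h
  have hfin : {j : ℕ | 1 ≤ j ∧ j ≤ N ∧ B j}.Finite := (Set.finite_Iic N).subset fun j hj => hj.2.1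
  have h1 : ({j : ℕ | 1 ≤ j ∧ j ≤ N ∧ B' j}.ncard : ℝ) ≤ {j : ℕ | 1 ≤ j ∧ j ≤ N ∧ B j}.ncard :=
    Nat.cast_le.2 (Set.ncard_le_ncard (fun j hj => ⟨hj.1, hj.2.1, hB j hj.2.2⟩) hfin)
  gcongr

/-- **(1)** -/
theorem zero (RH : RiemannHypothesis) {t : ℝ} (ht : 0 < t) (ht1 : t < 1) {ε : ℝ} (hε : 0 < ε) :
    ∃ Q₀ : ℕ, ∀ Q : ℕ, Q₀ ≤ Q → ∀ᶠ N : ℕ in atTop, ∀ z : ℂ, ‖z‖ = 1 →
      ((2 - Real.sqrt 2) * t - ε) * (N * Q) ≤
        ∑ n ∈ Icc 1 N, ‖∑ i ∈ range Q, e1 (t * gt (n + Q + i)) -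
          z * ∑ i ∈ range Q, e1 (t * gt (n + i))‖ ^ 2 :=
  MS.far le_rfl (fun n => (e1_norm _).le) (main1 RH ht ht1) hε

/-- **(2)** -/
theorem one (RH : RiemannHypothesis) {s : ℝ} (hs : 1 < s) {a : ℕ → ℝ}
    (ha : Rig (3 / 25 * Real.sqrt s) a) :
    ∃ ε : ℝ, 0 < ε ∧ ∀ᶠ N : ℕ in atTop,
      ε * N ≤ ({j : ℕ | 1 ≤ j ∧ j ≤ N ∧ ∀ m : ℤ, ε ≤ |dj j - (a j + s * m)|}.ncard : ℝ) := by
  by_contra hcon
  obtain ⟨g, hg, hF⟩ := seq_sparse (B := fun ε j => ∀ m : ℤ, ε ≤ |dj j - (a j + s * m)|)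
    (fun ε ε' j h1 h2 m => h1.trans (h2 m)) hcon
  have hne : (Filter.map g atTop).NeBot := inferInstance
  have hs0 : 0 < s := by linarith
  have hk := kappa_ineq (s := s) (by linarith)
  have e1 : min 1 (2 * s - 1) = 1 := min_eq_left (by linarith)
  have h1s : 1 / s ≤ 1 := by rw [div_le_one hs0]; exact hs.le
  have e2 : min (1 / s) (2 - 1 / s) = 1 / s := min_eq_left (by linarith)
  rw [e1, mul_one, e2] at hk
  refine rig_MS hg ha (θ := ((1 : ℕ) : ℝ) / s) (v := ((1 : ℕ) : ℝ) / s) (by positivity) ?_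
    (main2 RH hg hF le_rfl (by simpa using hs))
  rw [Nat.cast_one]
  exact hk

/-- **(3)** -/
theorem two (RH : RiemannHypothesis) {s : ℝ} (hs : 1 / 2 < s) {a : ℕ → ℝ}
    (ha : Rig (3 / 25 * Real.sqrt (s * min 1 (2 * s - 1))) a) :
    ∃ ε : ℝ, 0 < ε ∧ ∀ᶠ N : ℕ in atTop,
      ε * N ≤ ({j : ℕ | 1 ≤ j ∧ j ≤ N ∧ ((∀ m : ℤ, ε ≤ |dj j - (a j + s * m)|) ∨
        (∀ k : ℕ, 1 ≤ k → ε ≤ |dj j - k / 2|))}.ncard : ℝ) := by
  by_contra hcon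
  obtain ⟨g, hg, hF⟩ := seq_sparse (B := fun ε j => (∀ m : ℤ, ε ≤ |dj j - (a j + s * m)|) ∨
    (∀ k : ℕ, 1 ≤ k → ε ≤ |dj j - k / 2|))
    (fun ε ε' j h1 h2 => h2.imp (fun h m => h1.trans (h m)) (fun h k hk => h1.trans (h k hk))) hcon
  have hne : (Filter.map g atTop).NeBot := inferInstance
  have hs0 : 0 < s := by linarith
  have h1 : Fol (Filter.map g atTop) s a := fun ε hε => sp_mono (hF ε hε) fun j h => Or.inl h
  have h2 : AHN (Filter.map g atTop) := fun ε hε => sp_mono (hF ε hε) fun j h => Or.inr h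
  refine rig_MS hg ha (θ := ((1 : ℕ) : ℝ) / s)
    (v := min (((1 : ℕ) : ℝ) / s) (2 - ((1 : ℕ) : ℝ) / s)) (by positivity) ?_
    (main3' RH hg h2 hs0 h1 le_rfl (by push_cast; linarith))
  rw [Nat.cast_one]
  exact kappa_ineq hs

/-- constant functions -/
lemma four_const (b : ℝ) : Four (fun _ => b) (fun k => if k = 0 then (b : ℂ) else 0) := by
  refine ⟨?_, fun x => ?_⟩
  · have e : (fun k : ℤ => |(k : ℝ)| ^ 3 * ‖(if k = 0 then (b : ℂ) else 0)‖) = fun _ => 0 := by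
      funext k
      by_cases hk : k = 0
      · subst hk
        simp
      · rw [if_neg hk, norm_zero, mul_zero]
    rw [e]
    exact summable_zero
  · have h := hasSum_single (f := fun k : ℤ => (if k = 0 then (b : ℂ) else 0) * ee (k * x)) 0
      (fun k hk => by rw [if_neg hk, zero_mul])
    simpa [ee_zero] using h

/-- the Sturmian words -/
theorem sturm_rig (u v α ρ : ℝ) {κ : ℝ} (hκ : 0 < κ) :
    Rig κ fun j : ℕ => u + (v - u) * ((⌊((j : ℝ) + 1) * α + ρ⌋ : ℝ) - (⌊(j : ℝ) * α + ρ⌋ : ℝ)) := by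
  have h := (quasi_rig (K := 1) le_rfl (fun _ => four_const (u + (v - u) * α))
    (fun _ => dom_fract (-(v - u)) ρ) α).rig hκ
  have e : (fun j : ℕ => u + (v - u) * ((⌊((j : ℝ) + 1) * α + ρ⌋ : ℝ) - (⌊(j : ℝ) * α + ρ⌋ : ℝ))) =
      fun j : ℕ => (u + (v - u) * α) + (-(v - u) * Int.fract (((j + 1 : ℕ) : ℝ) * α + ρ) -
        -(v - u) * Int.fract ((j : ℝ) * α + ρ)) := by
    funext j
    have e1 : ∀ z : ℝ, Int.fract z = z - ⌊z⌋ := fun z => rfl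
    rw [e1, e1]
    push_cast
    ring
  rw [e]
  exact h

end Pool.Agent.K9h98.QP
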